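import Pool.Agent.Work.MP_af7a01_h91.Model

/-!
# Time-bounded Kolmogorov complexity relative to an oracle (MP_af7a01_lc)
-/

namespace Pool.IC

/-- Time-bounded Kolmogorov complexity `C^t(x)` relative to the oracle `B`: least length of a
program which (with empty conditional input and empty input) prints `x` within `t |x|` steps. -/
noncomputable def CK (U : Interpreter) (B : Set Str) (t : ℕ → ℕ) (x : Str) : ℕ∞ :=
  ⨅ p ∈ {p : Str | U.run B p [] [] (t x.length) = some x}, (p.length : ℕ∞)

end Pool.IC
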