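import Pool.Agent.Work.MP_af7a01_sep.Oracle

/-!
# Consistent programs and undecided strings, in all oracles
-/

open Classical

namespace Pool.ICS

open Pool.IC

variable (U : Interpreter)

/-- The questions of `U` with oracle `B` and program `p` on input `z` in `n` steps. -/
noncomputable def Qs (B : Set Str) (p z : Str) (n : ℕ) : Finset Str := (U.asks B p [] z n).choose

theorem card_Qs (B : Set Str) (p z : Str) (n : ℕ) : (Qs U B p z n).card ≤ n :=
  (U.asks B p [] z n).choose_spec.1

theorem length_Qs {B : Set Str} {p z : Str} {n : ℕ} {q : Str} (hq : q ∈ Qs U B p z n) :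
    q.length ≤ p.length + z.length + n := by
  have := (U.asks B p [] z n).choose_spec.2.1 q hq
  simpa using this

theorem run_Qs {B B' : Set Str} {p z : Str} {n : ℕ} (h : ∀ q ∈ Qs U B p z n, (q ∈ B ↔ q ∈ B')) :
    U.run B p [] z n = U.run B' p [] z n :=
  (U.asks B p [] z n).choose_spec.2.2 B' h

theorem run_agree {B B' : Set Str} {p z : Str} {n : ℕ}
    (h : ∀ q : Str, q.length ≤ p.length + z.length + n → (q ∈ B ↔ q ∈ B')) :
    U.run B p [] z n = U.run B' p [] z n :=
  run_Qs U fun _ hq => h _ (length_Qs U hq)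

theorem out_agree {B B' : Set Str} {M : Cmd} {z : Str} {n : ℕ}
    (h : ∀ q : Str, q.length ≤ z.length + n → (q ∈ B ↔ q ∈ B')) :
    out B M [] [] z n = out B' M [] [] z n := by
  refine out_congr le_rfl fun q hq => h q ?_
  have := length_queries hq
  simpa using this

/-- The time bounds `(n + 2) ^ a`. -/
def tt (a n : ℕ) : ℕ := (n + 2) ^ a

/-- The padding. -/
def pd (a n : ℕ) : ℕ := (n + 2) ^ (4 * a + 8)

theorem tt_mono (a : ℕ) {m n : ℕ} (h : m ≤ n) : tt a m ≤ tt a n :=
  Nat.pow_le_pow_left (by omega) a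

theorem pd_mono (a : ℕ) {m n : ℕ} (h : m ≤ n) : pd a m ≤ pd a n :=
  Nat.pow_le_pow_left (by omega) _

theorem tt_le (a n : ℕ) : tt a n ≤ (n + 2) ^ (a + 1) :=
  Nat.pow_le_pow_right (by omega) (by omega)

/-- The padding is at least the fourth power of the length of all questions. -/
theorem four_le_pd (a n l : ℕ) (h : l ≤ 2 * n + tt a n) : l ^ 4 ≤ pd a n := by
  have h1 : 2 * n + tt a n ≤ (n + 2) ^ (a + 2) := by
    have h2 : tt a n ≤ (n + 2) ^ (a + 1) := tt_le a n
    have h3 : n + 2 ≤ (n + 2) ^ (a + 1) := by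
      calc n + 2 = (n + 2) ^ 1 := (pow_one _).symm
        _ ≤ (n + 2) ^ (a + 1) := Nat.pow_le_pow_right (by omega) (by omega)
    have h4 : (n + 2) ^ (a + 2) = (n + 2) ^ (a + 1) * (n + 2) := pow_succ _ _
    have h5 : 1 ≤ (n + 2) ^ (a + 1) := Nat.one_le_pow _ _ (by omega)
    rcases Nat.eq_zero_or_pos n with hn | hn
    · subst hn
      simp only [Nat.zero_add] at h2 h3 h4 h5 ⊢
      omega
    · have h6 : (n + 2) ^ (a + 1) * 3 ≤ (n + 2) ^ (a + 1) * (n + 2) :=
        Nat.mul_le_mul_left _ (by omega)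
      omega
  calc l ^ 4 ≤ ((n + 2) ^ (a + 2)) ^ 4 := Nat.pow_le_pow_left (h.trans h1) 4
    _ = pd a n := by
      unfold pd
      rw [← pow_mul]
      congr 1
      ring

theorem mul_le_pd (a n l : ℕ) (h : l ≤ n) : l * tt a n ≤ pd a n := by
  unfold tt pd
  calc l * (n + 2) ^ a ≤ (n + 2) * (n + 2) ^ a := Nat.mul_le_mul_right _ (by omega)
    _ = (n + 2) ^ (a + 1) := by rw [pow_succ, Nat.mul_comm]
    _ ≤ (n + 2) ^ (4 * a + 8) := Nat.pow_le_pow_right (by omega) (by omega)

theorem le_pd (a n l : ℕ) (h : l ≤ 2 * n + tt a n) : l ≤ pd a n := by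
  exact (pow_four_le (four_le_pd a n l h)).1

theorem lt_pd (a n : ℕ) : n < pd a n := by
  unfold pd
  calc n < n + 2 := by omega
    _ = (n + 2) ^ 1 := (pow_one _).symm
    _ ≤ (n + 2) ^ (4 * a + 8) := Nat.pow_le_pow_right (by omega) (by omega)

/-- The program `p` is refuted by short computations. -/
def Refuted (a : ℕ) (M : Cmd) (B : Set Str) (n : ℕ) (p : Str) : Prop :=
  ∃ (z : Str) (v : ℕ) (o : Str), p.length + z.length + tt a z.length + v ≤ Nat.log 2 n ∧
    out B M [] [] z v = some o ∧ U.run B p [] z (tt a z.length) ≠ some o ∧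
    U.run B p [] z (tt a z.length) ≠ some []

/-- The programs of length less than `k` which are not refuted. -/
noncomputable def FF (a : ℕ) (M : Cmd) (B : Set Str) (k n : ℕ) : Finset Str :=
  (short k).filter fun p => ¬ Refuted U a M B n p

/-- The strings of length `n` which are not decided by these programs. -/
noncomputable def HH (a : ℕ) (M : Cmd) (B : Set Str) (k n : ℕ) : Finset Str :=
  (strs n).filter fun x => ∀ p ∈ FF U a M B k n, U.run B p [] x (tt a n) = some []

/-- The consistent programs of length less than `k`. -/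
noncomputable def CC (a : ℕ) (A B : Set Str) (k : ℕ) : Finset Str :=
  (short k).filter fun p => Consistent U B (tt a) A p

variable {U}

theorem refuted_imp {a : ℕ} {M : Cmd} {B B' : Set Str} {n : ℕ} {p : Str}
    (h : ∀ q : Str, q.length ≤ Nat.log 2 n → (q ∈ B ↔ q ∈ B')) (hr : Refuted U a M B n p) :
    Refuted U a M B' n p := by
  obtain ⟨z, v, o, h1, h2, h3, h4⟩ := hr
  have e1 : U.run B p [] z (tt a z.length) = U.run B' p [] z (tt a z.length) :=
    run_agree U fun q hq => h q (by omega)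
  have e2 : out B M [] [] z v = out B' M [] [] z v := out_agree fun q hq => h q (by omega)
  exact ⟨z, v, o, h1, e2 ▸ h2, e1 ▸ h3, e1 ▸ h4⟩

theorem FF_congr {a : ℕ} {M : Cmd} {B B' : Set Str} {k n : ℕ}
    (h : ∀ q : Str, q.length ≤ Nat.log 2 n → (q ∈ B ↔ q ∈ B')) :
    FF U a M B k n = FF U a M B' k n := by
  unfold FF
  refine Finset.filter_congr fun p _ => not_congr ⟨refuted_imp h, refuted_imp fun q hq => ?_⟩
  exact (h q hq).symm

theorem HH_congr {a : ℕ} {M : Cmd} {B B' : Set Str} {k n : ℕ}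
    (h : ∀ q : Str, q.length ≤ k + n + tt a n → (q ∈ B ↔ q ∈ B')) :
    HH U a M B k n = HH U a M B' k n := by
  have hF : FF U a M B k n = FF U a M B' k n := by
    refine FF_congr fun q hq => h q ?_
    have := Nat.log_le_self 2 n
    omega
  unfold HH
  rw [hF]
  refine Finset.filter_congr fun x hx => ?_
  rw [mem_strs] at hx
  refine forall₂_congr fun p hp => ?_
  have hp' : p.length < k := by
    unfold FF at hp
    exact mem_short.1 (Finset.mem_filter.1 hp).1
  rw [run_agree U fun q hq => h q (by omega)]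

theorem refuted_mono {a : ℕ} {M : Cmd} {B : Set Str} {m n : ℕ} {p : Str} (h : m ≤ n)
    (hr : Refuted U a M B m p) : Refuted U a M B n p := by
  obtain ⟨z, v, o, h1, h2⟩ := hr
  exact ⟨z, v, o, h1.trans (Nat.log_mono_right h), h2⟩

theorem FF_sub {a : ℕ} {M : Cmd} {B : Set Str} {k n k' : ℕ} (hk : k' ≤ k) {p : Str} :
    p ∈ FF U a M B k' n ↔ p ∈ FF U a M B k n ∧ p.length < k' := by
  unfold FF
  rw [Finset.mem_filter, Finset.mem_filter, mem_short, mem_short]
  constructor
  · rintro ⟨h1, h2⟩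
    exact ⟨⟨by omega, h2⟩, h1⟩
  · rintro ⟨⟨-, h2⟩, h1⟩
    exact ⟨h1, h2⟩

section
variable {a : ℕ} {M : Cmd} {A B : Set Str}

theorem CC_sub_FF (hM : ∀ z : Str, ∃ n : ℕ, out B M [] [] z n = some (chi A z)) (k n : ℕ) :
    CC U a A B k ⊆ FF U a M B k n := by
  intro p hp
  unfold CC at hp
  rw [Finset.mem_filter] at hp
  unfold FF
  rw [Finset.mem_filter]
  refine ⟨hp.1, ?_⟩
  rintro ⟨z, v, o, -, h2, h3, h4⟩
  obtain ⟨n', hn'⟩ := hM z
  have h5 := out_det h2 hn'
  subst h5
  rcases hp.2 z with h6 | h6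
  · exact h3 h6
  · exact h4 h6

theorem exists_refuted (hM : ∀ z : Str, ∃ n : ℕ, out B M [] [] z n = some (chi A z)) {p : Str}
    (hp : ¬ Consistent U B (tt a) A p) : ∃ n, Refuted U a M B n p := by
  unfold Consistent at hp
  push Not at hp
  obtain ⟨z, h1, h2⟩ := hp
  obtain ⟨v, hv⟩ := hM z
  refine ⟨2 ^ (p.length + z.length + tt a z.length + v), z, v, chi A z, ?_, hv, h1, h2⟩
  rw [Nat.log_pow (by norm_num)]

theorem exists_FF_eq (hM : ∀ z : Str, ∃ n : ℕ, out B M [] [] z n = some (chi A z)) (k : ℕ) :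
    ∃ n0, ∀ n ≥ n0, FF U a M B k n = CC U a A B k := by
  have h1 : ∀ p : Str, ∃ n, ¬ Consistent U B (tt a) A p → Refuted U a M B n p := by
    intro p
    by_cases hp : Consistent U B (tt a) A p
    · exact ⟨0, fun h => absurd hp h⟩
    · obtain ⟨n, hn⟩ := exists_refuted (a := a) hM hp
      exact ⟨n, fun _ => hn⟩
  choose f hf using h1
  refine ⟨(short k).sup f, fun n hn => ?_⟩
  refine Finset.Subset.antisymm ?_ (CC_sub_FF hM k n)
  intro p hp
  unfold FF at hp
  rw [Finset.mem_filter] at hp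
  unfold CC
  rw [Finset.mem_filter]
  refine ⟨hp.1, ?_⟩
  by_contra hcon
  exact hp.2 (refuted_mono ((Finset.le_sup hp.1).trans hn) (hf p hcon))

theorem FF_eq_iff (hM : ∀ z : Str, ∃ n : ℕ, out B M [] [] z n = some (chi A z)) (k n : ℕ) :
    (FF U a M B k n).card = (CC U a A B k).card ↔ FF U a M B k n = CC U a A B k := by
  constructor
  · intro h
    exact (Finset.eq_of_subset_of_card_le (CC_sub_FF hM k n) h.le).symm
  · intro h
    rw [h]

/-- If the programs which are not refuted are the consistent programs of length less than `k`, this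
holds for smaller `k`. -/
theorem FF_eq_of_le {k k' n : ℕ} (hk : k' ≤ k) (h : FF U a M B k n = CC U a A B k) :
    FF U a M B k' n = CC U a A B k' := by
  ext p
  rw [FF_sub hk, h]
  unfold CC
  rw [Finset.mem_filter, Finset.mem_filter, mem_short, mem_short]
  constructor
  · rintro ⟨⟨-, h2⟩, h1⟩
    exact ⟨h1, h2⟩
  · rintro ⟨h1, h2⟩
    exact ⟨⟨by omega, h2⟩, h1⟩

theorem chi_ne_nil (A : Set Str) (x : Str) : chi A x ≠ [] := by
  unfold chi
  simp

/-- Lower bound for the instance complexity. -/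
theorem le_ic {k : ℕ} {x : Str} (h : ∀ p ∈ CC U a A B k, U.run B p [] x (tt a x.length) = some []) :
    (k : ℕ∞) ≤ ic U B (tt a) x A := by
  unfold ic
  refine le_iInf₂ fun p hp => ?_
  by_contra hcon
  rw [not_le, Nat.cast_lt] at hcon
  have hp' : Consistent U B (tt a) A p ∧ U.run B p [] x (tt a x.length) = some (chi A x) := hp
  have h1 : p ∈ CC U a A B k := by
    unfold CC
    rw [Finset.mem_filter, mem_short]
    exact ⟨hcon, hp'.1⟩
  have h2 := h p h1
  rw [hp'.2] at h2
  exact chi_ne_nil A x (Option.some.inj h2)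

end

/-! ### The accepted string -/

/-- An element of a nonempty finite set of strings. -/
noncomputable def pick (H : Finset Str) : Str := if h : H.Nonempty then h.choose else []

theorem pick_mem {H : Finset Str} (h : H.Nonempty) : pick H ∈ H := by
  unfold pick
  rw [dif_pos h]
  exact h.choose_spec

variable (U)

/-- `z` is the chosen undecided string, where the strings of length `n` are judged in the oracle
`B n`. -/
def Acc (a : ℕ) (M : Cmd) (B : ℕ → Set Str) (k v : ℕ) (z : Str) : Prop :=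
  2 ^ k ≤ z.length ∧ (FF U a M (B z.length) k z.length).card = v ∧
    z ∈ HH U a M (B z.length) k z.length ∧ z = pick (HH U a M (B z.length) k z.length) ∧
    ∀ n, 2 ^ k ≤ n → n < z.length → (FF U a M (B n) k n).card = v → HH U a M (B n) k n = ∅

variable {U}

theorem Acc.unique {a : ℕ} {M : Cmd} {B : ℕ → Set Str} {k v : ℕ} {z z' : Str}
    (h : Acc U a M B k v z) (h' : Acc U a M B k v z') : z = z' := by
  obtain ⟨h1, h2, h3, h4, h5⟩ := h
  obtain ⟨h1', h2', h3', h4', h5'⟩ := h'
  rcases lt_trichotomy z.length z'.length with hlt | heq | hgt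
  · have := h5' _ h1 hlt h2
    rw [this] at h3
    exact absurd h3 (Finset.notMem_empty _)
  · rw [h4, h4', heq]
  · have := h5 _ h1' hgt h2'
    rw [this] at h3'
    exact absurd h3' (Finset.notMem_empty _)

theorem Acc.congr {a : ℕ} {M : Cmd} {B B' : ℕ → Set Str} {k v : ℕ} {z : Str}
    (h : ∀ n ≤ z.length, ∀ q : Str, q.length ≤ k + n + tt a n → (q ∈ B n ↔ q ∈ B' n))
    (hA : Acc U a M B k v z) : Acc U a M B' k v z := by
  have hH : ∀ n ≤ z.length, HH U a M (B n) k n = HH U a M (B' n) k n :=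
    fun n hn => HH_congr (h n hn)
  have hF : ∀ n ≤ z.length, FF U a M (B n) k n = FF U a M (B' n) k n := by
    refine fun n hn => FF_congr fun q hq => h n hn q ?_
    have := Nat.log_le_self 2 n
    omega
  obtain ⟨h1, h2, h3, h4, h5⟩ := hA
  refine ⟨h1, ?_, ?_, ?_, fun n hn hn2 hn3 => ?_⟩
  · rw [← hF _ le_rfl, h2]
  · rw [← hH _ le_rfl]
    exact h3
  · rw [← hH _ le_rfl]
    exact h4
  · rw [← hF n hn2.le] at hn3
    rw [← hH n hn2.le]
    exact h5 n hn hn2 hn3

theorem exists_Acc {a : ℕ} {M : Cmd} {B : ℕ → Set Str} {k v : ℕ}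
    (h : ∃ n, 2 ^ k ≤ n ∧ (FF U a M (B n) k n).card = v ∧ (HH U a M (B n) k n).Nonempty) :
    ∃ z, Acc U a M B k v z := by
  have h0 := Nat.find_spec h
  have h1 := fun m (hm : m < Nat.find h) => Nat.find_min h hm
  set n := Nat.find h with hn
  obtain ⟨h2, h3, h4⟩ := h0
  have h5 := pick_mem h4
  have h6 : (pick (HH U a M (B n) k n)).length = n := by
    unfold HH at h5 ⊢
    exact mem_strs.1 (Finset.mem_filter.1 h5).1
  refine ⟨pick (HH U a M (B n) k n), ?_⟩
  unfold Acc
  rw [h6]
  refine ⟨h2, h3, h5, rfl, fun m hm hm2 hm3 => ?_⟩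
  by_contra hcon
  exact h1 m hm2 ⟨hm, hm3, Finset.nonempty_iff_ne_empty.2 hcon⟩

/-! ### Codes of numbers -/

/-- The number coded by a string. -/
def val : Str → ℕ
  | [] => 0
  | b :: l => (if b then 1 else 0) + 2 * val l

theorem exists_val (k : ℕ) : ∀ v < 2 ^ k, ∃ r : Str, r.length = k ∧ val r = v := by
  induction k with
  | zero =>
    intro v hv
    rw [pow_zero] at hv
    exact ⟨[], rfl, by simp [val]; omega⟩
  | succ k ih =>
    intro v hv
    rw [pow_succ] at hv
    obtain ⟨r, h1, h2⟩ := ih (v / 2) (by omega)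
    rcases Nat.mod_two_eq_zero_or_one v with h3 | h3
    · refine ⟨false :: r, by simp [h1], ?_⟩
      simp only [val, h2]
      simp
      omega
    · refine ⟨true :: r, by simp [h1], ?_⟩
      simp only [val, h2]
      simp
      omega

theorem card_CC_lt (a : ℕ) (A B : Set Str) (k : ℕ) : (CC U a A B k).card < 2 ^ k := by
  unfold CC
  have h1 := Finset.card_filter_le (short k) fun p => Consistent U B (tt a) A p
  have h2 := card_short k
  omega

end Pool.ICS
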