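import Pool.Agent.Work.MP_af7a01_sep.Hide
import Pool.Agent.Work.MP_af7a01_sep.Runs

/-!
# The oracle of the separation
-/

open Classical

namespace Pool.ICS

open Pool.IC

/-- Indices of questions. -/
structure Idx where
  /-- type -/
  ty : ℕ
  /-- exponent of the time bound -/
  a : ℕ
  /-- program deciding the set -/
  M : Cmd
  /-- programs of the interpreter -/
  F : Finset Str
  /-- exceptions -/
  T : Finset Str
  /-- exceptions in the set -/
  T' : Finset Str

instance : Countable Idx := by
  refine Function.Injective.countable (f := fun I : Idx => (I.ty, I.a, I.M, I.F, I.T, I.T')) ?_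
  rintro ⟨_, _, _, _, _, _⟩ ⟨_, _, _, _, _, _⟩ h
  simp only [Prod.mk.injEq] at h
  obtain ⟨rfl, rfl, rfl, rfl, rfl, rfl⟩ := h
  rfl

noncomputable instance : Encodable Idx := Encodable.ofCountable Idx

/-- Questions that make `z` a key. -/
noncomputable def Ef (U : Interpreter) (o : Option Idx) (z : Str) (B : Set Str) : Finset Str :=
  match o with
  | some I => I.F.biUnion fun p => Qs U B p z (tt I.a z.length)
  | none => ∅

/-- Meaning of the questions. -/
def Gf (U : Interpreter) (d : ℕ → ℕ) (o : Option Idx) (r z : Str) (V : Par → Set Str) (Y : Par) :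
    Prop :=
  match o with
  | some I =>
    if I.ty ≤ 2 then
      Acc U I.a I.M (fun n => V (cut (2 * mu d (pd I.a n) + I.ty) Y)) r.length (val r) z
    else (z ∈ I.T ∧ z ∈ I.T') ∨
      (z ∉ I.T ∧ ∃ p ∈ I.F, U.run (V Y) p [] z (tt I.a z.length) = some [true])
  | none => False

/-- The sizes of the levels. -/
def lev (h : ℕ → ℕ) : ℕ → ℕ
  | 0 => 20 + ∑ v ∈ Finset.range 3, h v
  | i + 1 => 2 ^ (lev h i + 1) + ∑ v ∈ Finset.range (2 * (i + 1) + 3), h v

theorem lev_ge (h : ℕ → ℕ) (i : ℕ) : ∑ v ∈ Finset.range (2 * i + 3), h v ≤ lev h i := by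
  cases i with
  | zero => exact Nat.le_add_left _ _
  | succ i => exact Nat.le_add_left _ _

/-- The data of the construction. -/
noncomputable def dat (U : Interpreter) (h : ℕ → ℕ) : Dat where
  d := lev h
  E j z B := Ef U (Encodable.decode j) z B
  G j r z V Y := Gf U (lev h) (Encodable.decode j) r z V Y
  d0 := Nat.le_add_right _ _
  grow _ := Nat.le_add_right _ _

variable (U : Interpreter) (D : Dat) (N : ℕ → Cmd)

/-- The oracles in which the strings of length `n` are judged (type `s`). -/
def wrl (s : ℕ) (Y : Par) (a n : ℕ) : Set Str := Wor D (cut (2 * mu D.d (pd a n) + s) Y)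

/-- `z` is a candidate of level `m` and type `s`. -/
def HasCand (s m : ℕ) (Z : Par) (I : Idx) (r z : Str) : Prop :=
  pd I.a z.length < 2 ^ (D.d m + 1) ∧ Acc U I.a I.M (wrl D s Z I.a) r.length (val r) z

/-- The questions about a candidate. -/
noncomputable def cand (M : ℕ) (Z : Par) (o : Option Idx) (r p : Str) : Finset Str :=
  match o with
  | none => ∅
  | some I => if h : ∃ z, HasCand U D (M % 2) (M / 2) Z I r z then
      Qs U (Wor D (cut M Z)) p h.choose (tt I.a h.choose.length) else ∅

/-- The questions about all candidates. -/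
noncomputable def cds (M : ℕ) (Z : Par) : Finset Str :=
  (Finset.range (M / 2 + 1)).biUnion fun j => (short (D.d (M / 2) + 1)).biUnion fun r =>
    (short r.length).biUnion fun p => cand U D M Z (Encodable.decode j) r p

/-- The questions of short programs on the empty input. -/
noncomputable def rs (m : ℕ) (Z : Par) : Finset Str :=
  (short (8 * D.d m)).biUnion fun p => Qs U (Wor D (cut (2 * m) Z)) p [] (2 ^ D.d m)

/-- The questions of the program `N m`. -/
noncomputable def qn (M : ℕ) (Z : Par) : Finset Str :=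
  (queries (Wor D (cut M Z)) (N (M / 2)) [] [] ((Z (2 * (M / 2))).getD [])
    (2 ^ D.d (M / 2))).filter fun q => q.length < 2 ^ (D.d (M / 2) + 1)

/-- The relevant questions. -/
noncomputable def rel (M : ℕ) (Z : Par) : Finset Str :=
  (rs U D (M / 2) Z ∪ cds U D (2 * (M / 2)) Z) ∪ (cds U D M Z ∪ qn D N M Z)

/-- The strings printed by short programs. -/
noncomputable def av0 (m : ℕ) (Z : Par) : Finset Str :=
  (short (8 * D.d m)).biUnion fun p =>
    (U.run (Wor D (cut (2 * m) Z)) p [] [] (2 ^ D.d m)).toFinset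

/-- The strings whose first bit is the output of `N m`. -/
noncomputable def av1 (M : ℕ) (Z : Par) : Finset Str :=
  (strs (16 * D.d (M / 2))).filter fun y => ∃ b l, y = b :: l ∧
    out (Wor D (cut M Z)) (N (M / 2)) [] [] ((Z (2 * (M / 2))).getD []) (2 ^ D.d (M / 2)) =
      some [b]

/-- The strings to avoid. -/
noncomputable def avd (M : ℕ) (Z : Par) : Finset Str :=
  if M % 2 = 0 then av0 U D (M / 2) Z else av1 D N M Z

variable {U D N}

theorem HasCand.lt {s m : ℕ} {Z : Par} {I : Idx} {r z : Str} (h : HasCand U D s m Z I r z) :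
    r.length < z.length :=
  lt_of_lt_of_le Nat.lt_two_pow_self h.2.1

theorem mem_cand {M : ℕ} {Z : Par} {o : Option Idx} {r p q : Str} (hp : p.length < r.length)
    (hq : q ∈ cand U D M Z o r p) : q.length < 2 ^ (D.d (M / 2) + 1) := by
  unfold cand at hq
  cases o with
  | none => exact absurd hq (Finset.notMem_empty _)
  | some I =>
    simp only at hq
    split_ifs at hq with h
    · have h1 := h.choose_spec
      have h2 := h1.lt
      have h3 := length_Qs U hq
      have h4 := le_pd I.a h.choose.length q.length (by omega)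
      exact lt_of_le_of_lt h4 h1.1
    · exact absurd hq (Finset.notMem_empty _)

theorem card_cand {M : ℕ} {Z : Par} {o : Option Idx} {r p : Str} :
    (cand U D M Z o r p).card ≤ 2 ^ (D.d (M / 2) + 1) := by
  unfold cand
  cases o with
  | none => simp
  | some I =>
    simp only
    split_ifs with h
    · have h1 := h.choose_spec
      have h4 := le_pd I.a h.choose.length (tt I.a h.choose.length) (by omega)
      exact (card_Qs U _ _ _ _).trans (h4.trans h1.1.le)
    · simp

theorem length_cds {M : ℕ} {Z : Par} {q : Str} (hq : q ∈ cds U D M Z) :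
    q.length < 2 ^ (D.d (M / 2) + 1) := by
  unfold cds at hq
  rw [Finset.mem_biUnion] at hq
  obtain ⟨j, -, hq⟩ := hq
  rw [Finset.mem_biUnion] at hq
  obtain ⟨r, -, hq⟩ := hq
  rw [Finset.mem_biUnion] at hq
  obtain ⟨p, hp, hq⟩ := hq
  rw [mem_short] at hp
  exact mem_cand hp hq

theorem length_rel {M : ℕ} {Z : Par} {q : Str} (hq : q ∈ rel U D N M Z) :
    q.length < 2 ^ (D.d (M / 2) + 1) := by
  have hbig := D.pow_big (M / 2)
  have hps := D.pow_succ' (M / 2)
  have hd := D.d_ge (M / 2)
  unfold rel at hq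
  rw [Finset.mem_union, Finset.mem_union, Finset.mem_union] at hq
  rcases hq with (hq | hq) | (hq | hq)
  · unfold rs at hq
    rw [Finset.mem_biUnion] at hq
    obtain ⟨p, hp, hq⟩ := hq
    rw [mem_short] at hp
    have h1 := length_Qs U hq
    rw [List.length_nil] at h1
    omega
  · have h1 := length_cds hq
    rwa [show 2 * (M / 2) / 2 = M / 2 by omega] at h1
  · exact length_cds hq
  · unfold qn at hq
    exact (Finset.mem_filter.1 hq).2

theorem card_cds (M : ℕ) (Z : Par) : (cds U D M Z).card ≤
    (M / 2 + 1) * (2 ^ (D.d (M / 2) + 1) * (2 ^ (D.d (M / 2) + 1) * 2 ^ (D.d (M / 2) + 1))) := by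
  set T := 2 ^ (D.d (M / 2) + 1) with hT
  unfold cds
  refine Finset.card_biUnion_le.trans ?_
  calc ∑ j ∈ Finset.range (M / 2 + 1), ((short (D.d (M / 2) + 1)).biUnion fun r =>
        (short r.length).biUnion fun p => cand U D M Z (Encodable.decode j) r p).card
      ≤ ∑ j ∈ Finset.range (M / 2 + 1), T * (T * T) := by
        refine Finset.sum_le_sum fun j _ => ?_
        refine Finset.card_biUnion_le.trans ?_
        calc ∑ r ∈ short (D.d (M / 2) + 1), ((short r.length).biUnion fun p =>
              cand U D M Z (Encodable.decode j) r p).card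
            ≤ ∑ r ∈ short (D.d (M / 2) + 1), T * T := by
              refine Finset.sum_le_sum fun r hr => ?_
              rw [mem_short] at hr
              refine Finset.card_biUnion_le.trans ?_
              calc ∑ p ∈ short r.length, (cand U D M Z (Encodable.decode j) r p).card
                  ≤ ∑ p ∈ short r.length, T :=
                    Finset.sum_le_sum fun p _ => card_cand
                _ = (short r.length).card * T := by
                    rw [Finset.sum_const, smul_eq_mul]
                _ ≤ T * T := by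
                    refine Nat.mul_le_mul_right _ ?_
                    have h1 := card_short r.length
                    have h2 := Nat.pow_le_pow_right (n := 2) (by norm_num) hr.le
                    omega
          _ = (short (D.d (M / 2) + 1)).card * (T * T) := by
              rw [Finset.sum_const, smul_eq_mul]
          _ ≤ T * (T * T) := by
              refine Nat.mul_le_mul_right _ ?_
              have := card_short (D.d (M / 2) + 1)
              omega
    _ = (M / 2 + 1) * (T * (T * T)) := by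
        rw [Finset.sum_const, smul_eq_mul, Finset.card_range]

theorem card_rs (m : ℕ) (Z : Par) : (rs U D m Z).card ≤ 2 ^ (8 * D.d m) * 2 ^ D.d m := by
  unfold rs
  refine Finset.card_biUnion_le.trans ?_
  calc ∑ p ∈ short (8 * D.d m), (Qs U (Wor D (cut (2 * m) Z)) p [] (2 ^ D.d m)).card
      ≤ ∑ p ∈ short (8 * D.d m), 2 ^ D.d m :=
        Finset.sum_le_sum fun p _ => card_Qs U _ _ _ _
    _ = (short (8 * D.d m)).card * 2 ^ D.d m := by rw [Finset.sum_const, smul_eq_mul]
    _ ≤ 2 ^ (8 * D.d m) * 2 ^ D.d m := by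
        refine Nat.mul_le_mul_right _ ?_
        have := card_short (8 * D.d m)
        omega

theorem card_qn (M : ℕ) (Z : Par) : (qn D N M Z).card ≤ 2 ^ D.d (M / 2) :=
  (Finset.card_filter_le _ _).trans (card_queries _ _ _ _ _ _)

theorem card_av0 (m : ℕ) (Z : Par) : (av0 U D m Z).card ≤ 2 ^ (8 * D.d m) := by
  unfold av0
  refine Finset.card_biUnion_le.trans ?_
  calc ∑ p ∈ short (8 * D.d m),
        ((U.run (Wor D (cut (2 * m) Z)) p [] [] (2 ^ D.d m)).toFinset).card
      ≤ ∑ p ∈ short (8 * D.d m), 1 := by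
        refine Finset.sum_le_sum fun p _ => ?_
        cases U.run (Wor D (cut (2 * m) Z)) p [] [] (2 ^ D.d m) <;> simp
    _ = (short (8 * D.d m)).card := by simp
    _ ≤ 2 ^ (8 * D.d m) := by
        have := card_short (8 * D.d m)
        omega

theorem card_av1 (M : ℕ) (Z : Par) : (av1 D N M Z).card ≤ 2 ^ (16 * D.d (M / 2) - 1) := by
  rw [← card_strs]
  refine Finset.card_le_card_of_injOn List.tail ?_ ?_
  · intro y hy
    rw [Finset.mem_coe] at hy ⊢
    unfold av1 at hy
    rw [Finset.mem_filter, mem_strs] at hy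
    rw [mem_strs, List.length_tail, hy.1]
  · intro y hy y' hy' hyy
    rw [Finset.mem_coe] at hy hy'
    unfold av1 at hy hy'
    rw [Finset.mem_filter] at hy hy'
    obtain ⟨-, b, l, rfl, h1⟩ := hy
    obtain ⟨-, b', l', rfl, h2⟩ := hy'
    rw [h1] at h2
    have h3 : b = b' := by simpa using h2
    have h4 : l = l' := hyy
    rw [h3, h4]

theorem card_avd (M : ℕ) (Z : Par) : (avd U D N M Z).card ≤ 2 ^ (16 * D.d (M / 2) - 1) := by
  unfold avd
  split_ifs
  · refine (card_av0 _ _).trans (Nat.pow_le_pow_right (by norm_num) ?_)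
    have := D.d_ge (M / 2)
    omega
  · exact card_av1 M Z

theorem card_all (M : ℕ) (Z : Par) :
    (avd U D N M Z).card + (rel U D N M Z).card * (2 ^ (D.d (M / 2) + 1)) ^ 2 <
      2 ^ (16 * D.d (M / 2)) := by
  have h1 := card_avd (U := U) (D := D) (N := N) M Z
  have h3 := D.d_ge (M / 2)
  have h4 : D.d (M / 2) < 2 ^ D.d (M / 2) := Nat.lt_two_pow_self
  have h5 := D.pow_big (M / 2)
  have c1 := card_cds (U := U) (D := D) M Z
  have c2 := card_cds (U := U) (D := D) (2 * (M / 2)) Z
  rw [show 2 * (M / 2) / 2 = M / 2 by omega] at c2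
  have c3 := card_rs (U := U) (D := D) (M / 2) Z
  have c4 := card_qn (D := D) (N := N) M Z
  set X := 2 ^ D.d (M / 2) with hX
  have e8 : 2 ^ (8 * D.d (M / 2)) = X ^ 8 := by rw [Nat.mul_comm, pow_mul]
  have e16 : 2 ^ (16 * D.d (M / 2)) = X ^ 16 := by rw [Nat.mul_comm, pow_mul]
  have eT : 2 ^ (D.d (M / 2) + 1) = 2 * X := by rw [pow_succ]; ring
  have e15 : 2 ^ (16 * D.d (M / 2)) = 2 * 2 ^ (16 * D.d (M / 2) - 1) := by
    rw [← pow_succ']
    congr 1
    omega
  rw [e8] at c3
  rw [eT] at c1 c2 ⊢
  have hm : M / 2 + 1 ≤ X := by omega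
  have c1' : (cds U D M Z).card ≤ 8 * X ^ 4 := by
    refine c1.trans ((Nat.mul_le_mul_right _ hm).trans (le_of_eq ?_))
    ring
  have c2' : (cds U D (2 * (M / 2)) Z).card ≤ 8 * X ^ 4 := by
    refine c2.trans ((Nat.mul_le_mul_right _ hm).trans (le_of_eq ?_))
    ring
  have c3' : (rs U D (M / 2) Z).card ≤ X ^ 9 := c3.trans (le_of_eq (by ring))
  have hrel : (rel U D N M Z).card ≤ X ^ 9 + 16 * X ^ 4 + X := by
    unfold rel
    have u1 := Finset.card_union_le (rs U D (M / 2) Z ∪ cds U D (2 * (M / 2)) Z)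
      (cds U D M Z ∪ qn D N M Z)
    have u2 := Finset.card_union_le (rs U D (M / 2) Z) (cds U D (2 * (M / 2)) Z)
    have u3 := Finset.card_union_le (cds U D M Z) (qn D N M Z)
    omega
  have hX1 : 1 ≤ X := by omega
  have p1 : X ^ 6 ≤ X ^ 11 := Nat.pow_le_pow_right hX1 (by norm_num)
  have p2 : X ^ 3 ≤ X ^ 11 := Nat.pow_le_pow_right hX1 (by norm_num)
  have p3 : 144 * X ^ 11 < X ^ 16 := by
    have e : X ^ 16 = X ^ 5 * X ^ 11 := by ring
    rw [e]
    refine Nat.mul_lt_mul_of_pos_right ?_ (by positivity)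
    calc 144 < 1000 ^ 5 := by norm_num
      _ ≤ X ^ 5 := Nat.pow_le_pow_left (by omega) 5
  have hR : (rel U D N M Z).card * (2 * X) ^ 2 ≤ 72 * X ^ 11 := by
    refine (Nat.mul_le_mul_right _ hrel).trans ?_
    calc (X ^ 9 + 16 * X ^ 4 + X) * (2 * X) ^ 2 = 4 * X ^ 11 + 64 * X ^ 6 + 4 * X ^ 3 := by ring
      _ ≤ 72 * X ^ 11 := by omega
  rw [← e16, e15] at p3
  rw [e15]
  omega

theorem wrl_agree {Y : Par} {s M a n : ℕ} (h : 2 * mu D.d (pd a n) + s ≤ M) :
    wrl D s (cut M Y) a n = wrl D s Y a n := by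
  unfold wrl
  rw [cut_cut Y h]

/-- Properties of the hidden strings. -/
structure Fine (U : Interpreter) (D : Dat) (N : ℕ → Cmd) (Y : Par) : Prop where
  len0 : ∀ m, ∃ z, Y (2 * m) = some z ∧ z.length = 16 * D.d m
  len1 : ∀ m, ∃ b w, Y (2 * m + 1) = some (b :: w) ∧ w.length + 1 = 16 * D.d m
  hard : ∀ m z, Y (2 * m) = some z → ∀ p : Str, p.length < 8 * D.d m →
    U.run (Wor D Y) p [] [] (2 ^ D.d m) ≠ some z
  diag : ∀ m z b w, Y (2 * m) = some z → Y (2 * m + 1) = some (b :: w) →
    out (Wor D Y) (N m) [] [] z (2 ^ D.d m) ≠ some [b]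
  hide : ∀ s ≤ 2, ∀ (I : Idx) (r p z : Str), Encodable.encode I ≤ mu D.d (pd I.a z.length) →
    Acc U I.a I.M (wrl D s Y I.a) r.length (val r) z → p.length < r.length →
    U.run (wrl D s Y I.a z.length) p [] z (tt I.a z.length) =
      U.run (Wor D Y) p [] z (tt I.a z.length)

theorem mem_cds {s m M' : ℕ} (hs : s < 2) (hM : 2 * m + s ≤ M') {Y : Par} {I : Idx} {r p z q : Str}
    (hm : m = mu D.d (pd I.a z.length)) (hI : Encodable.encode I ≤ m)
    (hA : Acc U I.a I.M (wrl D s Y I.a) r.length (val r) z) (hp : p.length < r.length)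
    (hq : q ∈ Qs U (Wor D (cut (2 * m + s) Y)) p z (tt I.a z.length)) :
    q ∈ cds U D (2 * m + s) (cut M' Y) := by
  have hspec : pd I.a z.length < 2 ^ (D.d m + 1) := by
    rw [hm]
    exact mu_spec D _
  have hdiv : (2 * m + s) / 2 = m := by omega
  have hmod : (2 * m + s) % 2 = s := by omega
  have hA' : Acc U I.a I.M (wrl D s (cut M' Y) I.a) r.length (val r) z := by
    refine Acc.congr (fun n hn q _ => ?_) hA
    rw [wrl_agree]
    have := mu_mono D (pd_mono I.a hn)
    omega
  have hex : ∃ z, HasCand U D s m (cut M' Y) I r z := ⟨z, hspec, hA'⟩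
  have hz : hex.choose = z := hex.choose_spec.2.unique hA'
  unfold cds
  rw [Finset.mem_biUnion, hdiv]
  refine ⟨Encodable.encode I, Finset.mem_range.2 (by omega), ?_⟩
  rw [Finset.mem_biUnion]
  refine ⟨r, ?_, ?_⟩
  · rw [mem_short]
    have h3 : 2 ^ r.length ≤ z.length := hA.1
    have h4 := lt_pd I.a z.length
    exact (Nat.pow_lt_pow_iff_right (a := 2) (by norm_num)).1 (by omega)
  · rw [Finset.mem_biUnion]
    refine ⟨p, mem_short.2 hp, ?_⟩
    rw [Encodable.encodek]
    unfold cand
    simp only
    rw [hdiv, hmod, dif_pos hex, hz, cut_cut Y hM]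
    exact hq

theorem exists_fine (U : Interpreter) (D : Dat) (N : ℕ → Cmd) : ∃ Y, Fine U D N Y := by
  obtain ⟨Y, h1, h2⟩ := exists_par D (avd U D N) (rel U D N) (fun _ _ _ hq => length_rel hq)
    (fun M Z => card_all M Z)
  have hlen0 : ∀ m, ∃ z, Y (2 * m) = some z ∧ z.length = 16 * D.d m := by
    intro m
    obtain ⟨y, h3, h4, -⟩ := h1 (2 * m)
    rw [show 2 * m / 2 = m by omega] at h4
    exact ⟨y, h3, h4⟩
  -- the steps
  have hstep1 : ∀ m q, q ∈ rel U D N (2 * m + 1) (cut (2 * m + 1) Y) →
      (q ∈ Wor D (cut (2 * m + 1) Y) ↔ q ∈ Wor D Y) := by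
    intro m q hq
    have h3 := length_rel hq
    rw [show (2 * m + 1) / 2 = m by omega] at h3
    rw [h2 _ q hq]
    exact (loc D h3).symm
  have hstep0 : ∀ m q, q ∈ rel U D N (2 * m) (cut (2 * m) Y) →
      q ∈ rel U D N (2 * m + 1) (cut (2 * m + 1) Y) →
      (q ∈ Wor D (cut (2 * m) Y) ↔ q ∈ Wor D Y) := by
    intro m q hq hq'
    rw [h2 _ q hq, hstep1 m q hq']
  refine ⟨Y, ⟨hlen0, fun m => ?_, ?_, ?_, ?_⟩⟩
  · obtain ⟨y, h3, h4, -⟩ := h1 (2 * m + 1)
    rw [show (2 * m + 1) / 2 = m by omega] at h4
    have := D.d_ge m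
    cases y with
    | nil =>
      rw [List.length_nil] at h4
      omega
    | cons b w =>
      rw [List.length_cons] at h4
      exact ⟨b, w, h3, h4⟩
  · intro m z hz p hp hrun
    obtain ⟨y', h3, h4, h5⟩ := h1 (2 * m)
    rw [hz] at h3
    obtain rfl := Option.some.inj h3
    apply h5
    unfold avd
    rw [if_pos (by omega), show 2 * m / 2 = m by omega]
    unfold av0
    rw [Finset.mem_biUnion]
    refine ⟨p, mem_short.2 hp, ?_⟩
    rw [cut_cut Y le_rfl]
    have h6 : U.run (Wor D (cut (2 * m) Y)) p [] [] (2 ^ D.d m) =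
        U.run (Wor D Y) p [] [] (2 ^ D.d m) := by
      refine run_Qs U fun q hq => hstep0 m q ?_ ?_
      · unfold rel rs
        rw [show 2 * m / 2 = m by omega, cut_cut Y le_rfl]
        exact Finset.mem_union_left _ (Finset.mem_union_left _
          (Finset.mem_biUnion.2 ⟨p, mem_short.2 hp, hq⟩))
      · unfold rel rs
        rw [show (2 * m + 1) / 2 = m by omega, cut_cut Y (by omega)]
        exact Finset.mem_union_left _ (Finset.mem_union_left _
          (Finset.mem_biUnion.2 ⟨p, mem_short.2 hp, hq⟩))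
    rw [h6, hrun]
    simp
  · intro m z b w hz hw hrun
    obtain ⟨y', h3, h4, h5⟩ := h1 (2 * m + 1)
    rw [hw] at h3
    obtain rfl := Option.some.inj h3
    have hzl : z.length = 16 * D.d m := by
      obtain ⟨z', h6, h7⟩ := hlen0 m
      rw [hz] at h6
      obtain rfl := Option.some.inj h6
      exact h7
    have hget : (cut (2 * m + 1) Y (2 * m)).getD [] = z := by
      unfold cut
      rw [if_pos (by omega), hz]
      rfl
    apply h5
    unfold avd
    rw [if_neg (by omega)]
    unfold av1
    rw [Finset.mem_filter, mem_strs]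
    refine ⟨h4, b, w, rfl, ?_⟩
    rw [show (2 * m + 1) / 2 = m by omega, hget, cut_cut Y le_rfl, ← hrun]
    refine out_congr le_rfl fun q hq => hstep1 m q ?_
    unfold rel qn
    rw [show (2 * m + 1) / 2 = m by omega, hget, cut_cut Y le_rfl]
    refine Finset.mem_union_right _ (Finset.mem_union_right _ (Finset.mem_filter.2 ⟨hq, ?_⟩))
    have h8 := length_queries hq
    have h9 := D.pow_big m
    have h10 := D.pow_succ' m
    have h11 := D.d_ge m
    rw [List.length_nil] at h8
    omega
  · intro s hs I r p z hI hA hp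
    set m := mu D.d (pd I.a z.length) with hm
    have hspec : pd I.a z.length < 2 ^ (D.d m + 1) := mu_spec D _
    have hwrl : wrl D s Y I.a z.length = Wor D (cut (2 * m + s) Y) := rfl
    rw [hwrl]
    obtain rfl | rfl | rfl : s = 0 ∨ s = 1 ∨ s = 2 := by omega
    · refine run_Qs U fun q hq => hstep0 m q ?_ ?_
      · unfold rel
        rw [show 2 * (2 * m / 2) = 2 * m + 0 by omega]
        exact Finset.mem_union_left _ (Finset.mem_union_right _
          (mem_cds (by norm_num) le_rfl hm hI hA hp hq))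
      · unfold rel
        rw [show 2 * ((2 * m + 1) / 2) = 2 * m + 0 by omega]
        exact Finset.mem_union_left _ (Finset.mem_union_right _
          (mem_cds (by norm_num) (by omega) hm hI hA hp hq))
    · refine run_Qs U fun q hq => hstep1 m q ?_
      unfold rel
      exact Finset.mem_union_right _ (Finset.mem_union_left _
        (mem_cds (by norm_num) le_rfl hm hI hA hp hq))
    · refine run_agree U fun q hq => ?_
      have h3 : r.length < z.length := lt_of_lt_of_le Nat.lt_two_pow_self hA.1
      have h4 := le_pd I.a z.length q.length (by omega)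
      rw [← loc D (lt_of_le_of_lt h4 hspec)]

end Pool.ICS
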