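import Pool.Agent.Work.MP_af7a01_sep.Oracle

/-!
# Few hidden strings are touched by a question; choice of the hidden strings
-/

open Classical

namespace Pool.ICS

open Pool.IC

variable (D : Dat)

/-- The parameters `cut m Z` with the hidden string `y` at `m`. -/
def put (m : ℕ) (Z : Par) (y : Str) : Par := Function.update (cut m Z) m (some y)

theorem cut_put (m : ℕ) (Z : Par) (y : Str) : cut m (put m Z y) = cut m Z := by
  funext i
  unfold cut put
  by_cases hi : i < m
  · rw [if_pos hi, if_pos hi, Function.update_of_ne (by omega)]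
    unfold cut
    rw [if_pos hi]
  · rw [if_neg hi, if_neg hi]

theorem cut_put_of_le {k m : ℕ} (h : k ≤ m) (Z : Par) (y : Str) :
    cut k (put m Z y) = cut k (cut m Z) := by
  have h1 : cut m (put m Z y) = cut m (cut m Z) := by
    rw [cut_put, cut_cut Z le_rfl]
  exact cut_of_le h1 h

theorem cut_put_of_lt {k m : ℕ} (h : m < k) (Z : Par) (y : Str) :
    cut k (put m Z y) = put m Z y := by
  funext i
  unfold cut
  by_cases hi : i < k
  · rw [if_pos hi]
  · rw [if_neg hi]
    unfold put cut
    rw [Function.update_of_ne (by omega), if_neg (by omega)]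

theorem put_self (m : ℕ) (Z : Par) (y : Str) : put m Z y m = some y := by
  unfold put
  rw [Function.update_self]

theorem put_ne {m i : ℕ} (Z : Par) (y : Str) (h : i ≠ m) : put m Z y i = cut m Z i := by
  unfold put
  rw [Function.update_of_ne h]

theorem cut_self {i m : ℕ} (Z : Par) (h : m ≤ i) : cut m Z i = none := by
  unfold cut
  rw [if_neg (by omega)]

/-- The strings `y` whose presence at `M` changes the answer to `q`. -/
noncomputable def sens (M : ℕ) (Z : Par) (q : Str) : Finset Str :=
  (strs (16 * D.d (M / 2))).filter fun y => ¬ (q ∈ Wor D (cut M Z) ↔ q ∈ Wor D (put M Z y))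

theorem sens_of_iff {M : ℕ} {Z : Par} {q : Str}
    (h : ∀ y, q ∈ Wor D (cut M Z) ↔ q ∈ Wor D (put M Z y)) :
    (sens D M Z q).card ≤ q.length ^ 2 := by
  have : sens D M Z q = ∅ := by
    unfold sens
    rw [Finset.filter_eq_empty_iff]
    intro y _ h'
    exact h' (h y)
  rw [this]
  simp

theorem sens_of_one {M : ℕ} {Z : Par} {q : Str} (hq : 1 ≤ q.length) (u : Str)
    (h : ∀ y, y ≠ u → (q ∈ Wor D (cut M Z) ↔ q ∈ Wor D (put M Z y))) :
    (sens D M Z q).card ≤ q.length ^ 2 := by
  have h1 : sens D M Z q ⊆ {u} := by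
    intro y hy
    unfold sens at hy
    rw [Finset.mem_filter] at hy
    rw [Finset.mem_singleton]
    by_contra hne
    exact hy.2 (h y hne)
  have h2 := Finset.card_le_card h1
  rw [Finset.card_singleton] at h2
  exact h2.trans (Nat.one_le_pow _ _ hq)

/-- The questions which decide whether `j`, `z` is a key of kind `s`. -/
noncomputable def kq (V : Par → Set Str) (Y : Par) (s j : ℕ) (z : Str) (P : ℕ) : Finset Str :=
  if (D.E j z (V (cut (2 * mu D.d P + s) Y))).card ≤ P then
    (D.E j z (V (cut (2 * mu D.d P + s) Y))).filter fun q => q.length ^ 4 ≤ P else ∅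

theorem card_kq (V : Par → Set Str) (Y : Par) (s j : ℕ) (z : Str) (P : ℕ) :
    (kq D V Y s j z P).card ≤ P := by
  unfold kq
  split_ifs with h
  · exact (Finset.card_filter_le _ _).trans h
  · simp

theorem mem_kq {V : Par → Set Str} {Y : Par} {s j : ℕ} {z : Str} {P : ℕ} {q : Str}
    (h : q ∈ kq D V Y s j z P) : q.length ^ 4 ≤ P := by
  unfold kq at h
  split_ifs at h with h1
  · exact (Finset.mem_filter.1 h).2
  · exact absurd h (Finset.notMem_empty _)

/-- If the questions have the same answers then the keys are the same. -/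
theorem key_iff {V : Par → Set Str} {Y Y' : Par} {s j : ℕ} {z : Str} {P : ℕ}
    (hs : cut (2 * mu D.d P + s) Y = cut (2 * mu D.d P + s) Y')
    (h : ∀ q ∈ kq D V Y s j z P, ∀ s' ≤ 2, (q ∈ V (cut (2 * mu D.d P + s') Y) ↔
      q ∈ V (cut (2 * mu D.d P + s') Y'))) :
    Key D V Y s j z P ↔ Key D V Y' s j z P := by
  unfold Key
  rw [← hs]
  refine and_congr_right fun h1 => exists_congr fun q => and_congr_right fun h2 =>
    and_congr_right fun h3 => exists_congr fun s' => and_congr_right fun hs' => ?_
  have h4 : q ∈ kq D V Y s j z P := by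
    unfold kq
    rw [if_pos h1, Finset.mem_filter]
    exact ⟨h2, h3⟩
  rw [h q h4 s' hs']

theorem two_mul_le {P X L : ℕ} (hX : X ^ 2 ≤ P) (hL : P ≤ L) : P * X + P * X ≤ L ^ 2 + L := by
  have h1 : X + X ≤ P + 1 := by nlinarith [sq_nonneg ((X : ℤ) - 1)]
  calc P * X + P * X = P * (X + X) := by ring
    _ ≤ P * (P + 1) := Nat.mul_le_mul_left _ h1
    _ ≤ L * (L + 1) := Nat.mul_le_mul hL (by omega)
    _ = L ^ 2 + L := by ring

theorem card_sens (M : ℕ) (Z : Par) (L : ℕ) : ∀ q : Str, q.length = L →
    q.length < 2 ^ (D.d (M / 2) + 1) → (sens D M Z q).card ≤ q.length ^ 2 := by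
  induction L using Nat.strong_induction_on with
  | _ L ih =>
  intro q hL hq
  by_cases f1 : ∃ z, q = mk z
  · obtain ⟨z, rfl⟩ := f1
    refine sens_of_one D (by rw [length_mk]; omega) z fun y hy => ?_
    rw [mem_mk, mem_mk]
    constructor
    · rintro ⟨i, h1, h2⟩
      have hi : 2 * i ≠ M := by
        intro h3
        rw [cut_self Z h3.ge] at h2
        exact absurd h2 (by simp)
      exact ⟨i, h1, by rw [put_ne Z y hi, h2]⟩
    · rintro ⟨i, h1, h2⟩
      by_cases hi : 2 * i = M
      · subst hi
        rw [put_self] at h2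
        exact absurd (Option.some.inj h2) hy
      · exact ⟨i, h1, by rw [← put_ne Z y hi, h2]⟩
  by_cases f2 : ∃ i z, q = ix (i + 1) z
  · obtain ⟨i, z, rfl⟩ := f2
    refine sens_of_one D (by rw [length_ix]; omega) z fun y hy => ?_
    rw [mem_ix, mem_ix]
    by_cases hi : 2 * i = M
    · subst hi
      rw [put_self, cut_self Z le_rfl]
      constructor
      · rintro ⟨-, h2⟩
        exact absurd h2 (by simp)
      · rintro ⟨-, h2⟩
        exact absurd (Option.some.inj h2) hy
    · rw [put_ne Z y hi]
  by_cases f3 : ∃ b w z, q = wt b w z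
  · obtain ⟨b, w, z, rfl⟩ := f3
    refine sens_of_one D (by rw [length_wt]; omega) (b :: w) fun y hy => ?_
    rw [mem_wt, mem_wt]
    refine exists_congr fun i => and_congr_right fun _ => and_congr_right fun _ => ?_
    by_cases hi : 2 * i = M
    · subst hi
      rw [cut_self Z le_rfl, put_ne Z y (show 2 * i + 1 ≠ 2 * i by omega),
        cut_self Z (show 2 * i ≤ 2 * i + 1 by omega)]
      simp
    · by_cases hi2 : 2 * i + 1 = M
      · subst hi2
        rw [put_self, cut_self Z (le_refl (2 * i + 1))]
        constructor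
        · rintro ⟨-, h2⟩
          exact absurd h2 (by simp)
        · rintro ⟨-, h2⟩
          exact absurd (Option.some.inj h2) hy
      · rw [put_ne Z y hi, put_ne Z y hi2]
  by_cases f4 : ∃ b m z, q = fr b m z
  · obtain ⟨b, m, z, rfl⟩ := f4
    refine sens_of_iff D fun y => ?_
    rw [mem_fr, mem_fr]
    refine exists_congr fun i => exists_congr fun w => ?_
    by_cases hi : i < M / 2
    · rw [put_ne Z y (show 2 * i ≠ M by omega), put_ne Z y (show 2 * i + 1 ≠ M by omega)]
    · have hno : ¬ (m = 2 ^ (D.d i + 1)) := by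
        intro h1
        subst h1
        rw [length_fr] at hq
        have := D.pow_mono (not_lt.1 hi)
        omega
      constructor
      · rintro ⟨h1, -⟩
        exact absurd h1 hno
      · rintro ⟨h1, -⟩
        exact absurd h1 hno
  by_cases f5 : ∃ j r z P, q = ph j r z P
  · obtain ⟨j, r, z, P, rfl⟩ := f5
    have hq' := hq
    rw [length_ph] at hq'
    have hmu : mu D.d P ≤ M / 2 := mu_le D (by omega)
    rcases Nat.lt_or_ge (mu D.d P) (M / 2) with hlt | hge
    · refine sens_of_iff D fun y => ?_
      rw [mem_ph, mem_ph]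
      exact ans_congr D (cut_put_of_le (by omega) Z y).symm
    have hm : mu D.d P = M / 2 := by omega
    set V := View D (ph j r z P).length with hV
    set K := kq D V (cut M Z) 0 j z P ∪ kq D V (cut M Z) 1 j z P with hK
    have hK4 : ∀ q' ∈ K, q'.length ^ 4 ≤ P := by
      intro q' hq'
      rw [hK, Finset.mem_union] at hq'
      rcases hq' with h1 | h1
      · exact mem_kq D h1
      · exact mem_kq D h1
    have hsub : sens D M Z (ph j r z P) ⊆ K.biUnion fun q' => sens D M Z q' := by
      intro y hy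
      unfold sens at hy
      rw [Finset.mem_filter, mem_ph, mem_ph, ← hV] at hy
      obtain ⟨hy1, hy2⟩ := hy
      by_contra hcon
      have hins : ∀ q' ∈ K, (q' ∈ V (cut M Z) ↔ q' ∈ V (put M Z y)) := by
        intro q' hq'
        rw [hV, mem_View, mem_View]
        refine and_congr_right fun _ => ?_
        by_contra h1
        apply hcon
        rw [Finset.mem_biUnion]
        refine ⟨q', hq', ?_⟩
        unfold sens
        rw [Finset.mem_filter]
        exact ⟨hy1, h1⟩
      apply hy2
      -- the worlds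
      have hw : ∀ q' ∈ K, ∀ s' ≤ 2, (q' ∈ V (cut (2 * mu D.d P + s') (cut M Z)) ↔
          q' ∈ V (cut (2 * mu D.d P + s') (put M Z y))) := by
        intro q' hq' s' _
        by_cases h1 : 2 * mu D.d P + s' ≤ M
        · rw [cut_put_of_le h1]
        · rw [cut_put_of_lt (not_le.1 h1), cut_cut' Z (not_le.1 h1).le]
          exact hins q' hq'
      have hk0 : Key D V (cut M Z) 0 j z P ↔ Key D V (put M Z y) 0 j z P := by
        refine key_iff D ?_ fun q' hq' => hw q' (Finset.mem_union_left _ hq')
        rw [cut_put_of_le (by omega)]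
      rcases Nat.mod_two_eq_zero_or_one M with hpar | hpar
      · -- first hidden string
        have hn0 : ¬ Key D V (cut M Z) 0 j z P := by
          rintro ⟨-, q', -, -, s', -, hs', hne⟩
          apply hne
          rw [cut_cut' Z (show M ≤ 2 * mu D.d P + 0 by omega),
            cut_cut' Z (show M ≤ 2 * mu D.d P + s' by omega)]
        have hn1 : ¬ Key D V (put M Z y) 0 j z P := fun h1 => hn0 (hk0.2 h1)
        unfold Ans opn
        rw [if_neg hn0, if_neg hn1, cut_put_of_le (by omega)]
      · -- second hidden string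
        have hn0 : ¬ Key D V (cut M Z) 1 j z P := by
          rintro ⟨-, q', -, -, s', -, hs', hne⟩
          apply hne
          rw [cut_cut' Z (show M ≤ 2 * mu D.d P + 1 by omega),
            cut_cut' Z (show M ≤ 2 * mu D.d P + s' by omega)]
        have hk1 : Key D V (cut M Z) 1 j z P ↔ Key D V (put M Z y) 1 j z P := by
          refine key_iff D ?_ fun q' hq' => hw q' (Finset.mem_union_right _ hq')
          rw [cut_put_of_le (by omega)]
        have hn1 : ¬ Key D V (put M Z y) 1 j z P := fun h1 => hn0 (hk1.2 h1)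
        unfold Ans opn
        rw [if_neg hn0, if_neg hn1]
        by_cases h0 : Key D V (cut M Z) 0 j z P
        · rw [if_pos h0, if_pos (hk0.1 h0), cut_put_of_le (by omega)]
        · rw [if_neg h0, if_neg (fun h1 => h0 (hk0.2 h1)), cut_put_of_le (by omega)]
    refine (Finset.card_le_card hsub).trans (Finset.card_biUnion_le.trans ?_)
    -- every question contributes at most `X`
    obtain ⟨X, hX1, hX2⟩ : ∃ X, X ^ 2 ≤ P ∧ ∀ q' ∈ K, q'.length ^ 2 ≤ X := by
      refine ⟨K.sup fun q' => q'.length ^ 2, ?_, fun q' hq' =>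
        Finset.le_sup (f := fun q' : Str => q'.length ^ 2) hq'⟩
      rcases K.eq_empty_or_nonempty with h0 | h0
      · rw [h0]
        simp
      · obtain ⟨q', hq', h1⟩ := Finset.exists_mem_eq_sup K h0 fun q' => q'.length ^ 2
        rw [h1, ← pow_mul]
        exact hK4 q' hq'
    calc ∑ q' ∈ K, (sens D M Z q').card ≤ ∑ q' ∈ K, X := by
          refine Finset.sum_le_sum fun q' hq' => ?_
          have h1 := (pow_four_le (hK4 q' hq')).1
          exact (ih q'.length (by rw [← hL, length_ph]; omega) q' rfl (by omega)).trans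
            (hX2 q' hq')
      _ = K.card * X := by rw [Finset.sum_const, smul_eq_mul]
      _ ≤ (P + P) * X := by
          refine Nat.mul_le_mul_right X ?_
          rw [hK]
          exact (Finset.card_union_le _ _).trans (Nat.add_le_add (card_kq D _ _ _ _ _ _)
            (card_kq D _ _ _ _ _ _))
      _ = P * X + P * X := by ring
      _ ≤ P ^ 2 + P := two_mul_le hX1 le_rfl
      _ ≤ (ph j r z P).length ^ 2 := by
          rw [length_ph]
          nlinarith
  · refine sens_of_iff D fun y => ?_
    constructor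
    · rintro (⟨i, z, rfl, -⟩ | ⟨i, z, rfl, -⟩ | ⟨i, z, b, w, rfl, -⟩ | ⟨i, z, b, w, rfl, -⟩ |
        ⟨j, r, z, P, rfl, -⟩)
      · exact absurd ⟨z, rfl⟩ f1
      · exact absurd ⟨i, z, rfl⟩ f2
      · exact absurd ⟨b, w, z, rfl⟩ f3
      · exact absurd ⟨b, _, z, rfl⟩ f4
      · exact absurd ⟨j, r, z, P, rfl⟩ f5
    · rintro (⟨i, z, rfl, -⟩ | ⟨i, z, rfl, -⟩ | ⟨i, z, b, w, rfl, -⟩ | ⟨i, z, b, w, rfl, -⟩ |
        ⟨j, r, z, P, rfl, -⟩)
      · exact absurd ⟨z, rfl⟩ f1
      · exact absurd ⟨i, z, rfl⟩ f2
      · exact absurd ⟨b, w, z, rfl⟩ f3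
      · exact absurd ⟨b, _, z, rfl⟩ f4
      · exact absurd ⟨j, r, z, P, rfl⟩ f5

/-- Choice of the hidden strings: they avoid given sets, and the answers to given few
questions do not depend on them. -/
theorem exists_par (Avoid Rel : ℕ → Par → Finset Str)
    (hRel : ∀ M Z, ∀ q ∈ Rel M Z, q.length < 2 ^ (D.d (M / 2) + 1))
    (hcard : ∀ M Z, (Avoid M Z).card + (Rel M Z).card * (2 ^ (D.d (M / 2) + 1)) ^ 2 <
      2 ^ (16 * D.d (M / 2))) :
    ∃ Y : Par, (∀ M, ∃ y, Y M = some y ∧ y.length = 16 * D.d (M / 2) ∧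
      y ∉ Avoid M (cut M Y)) ∧
      ∀ M, ∀ q ∈ Rel M (cut M Y), (q ∈ Wor D (cut M Y) ↔ q ∈ Wor D (cut (M + 1) Y)) := by
  have hex : ∀ M Z, ∃ y : Str, y.length = 16 * D.d (M / 2) ∧ y ∉ Avoid M Z ∧
      ∀ q ∈ Rel M Z, (q ∈ Wor D (cut M Z) ↔ q ∈ Wor D (put M Z y)) := by
    intro M Z
    have h1 : (Avoid M Z ∪ (Rel M Z).biUnion fun q => sens D M Z q).card <
        (strs (16 * D.d (M / 2))).card := by
      rw [card_strs]
      refine lt_of_le_of_lt ?_ (hcard M Z)
      refine (Finset.card_union_le _ _).trans (Nat.add_le_add_left ?_ _)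
      refine Finset.card_biUnion_le.trans ?_
      calc ∑ q ∈ Rel M Z, (sens D M Z q).card
          ≤ ∑ q ∈ Rel M Z, (2 ^ (D.d (M / 2) + 1)) ^ 2 := by
            refine Finset.sum_le_sum fun q hq => ?_
            have h2 := hRel M Z q hq
            exact (card_sens D M Z q.length q rfl h2).trans (Nat.pow_le_pow_left h2.le 2)
        _ = (Rel M Z).card * (2 ^ (D.d (M / 2) + 1)) ^ 2 := by
            rw [Finset.sum_const, smul_eq_mul]
    obtain ⟨y, hy1, hy2⟩ := Finset.exists_mem_notMem_of_card_lt_card h1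
    rw [Finset.mem_union, not_or, Finset.mem_biUnion] at hy2
    refine ⟨y, mem_strs.1 hy1, hy2.1, fun q hq => ?_⟩
    by_contra hcon
    refine hy2.2 ⟨q, hq, ?_⟩
    unfold sens
    rw [Finset.mem_filter]
    exact ⟨hy1, hcon⟩
  choose y hy1 hy2 hy3 using hex
  let P : ℕ → Par := fun m => Nat.rec (fun _ => none) (fun m Z => put m Z (y m Z)) m
  have hP : ∀ m, P (m + 1) = put m (P m) (y m (P m)) := fun _ => rfl
  have hcut : ∀ m, cut m (P m) = P m := by
    intro m
    cases m with
    | zero =>
      funext i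
      show (if i < 0 then _ else none) = none
      rw [if_neg (Nat.not_lt_zero i)]
    | succ m => rw [hP, cut_put_of_lt (Nat.lt_succ_self m)]
  have hY : ∀ m, cut m (fun i => P (i + 1) i) = P m := by
    intro m
    induction m with
    | zero =>
      funext i
      show (if i < 0 then _ else none) = none
      rw [if_neg (Nat.not_lt_zero i)]
    | succ m ih =>
      funext i
      unfold cut
      by_cases h1 : i < m + 1
      · rw [if_pos h1]
        rcases Nat.lt_succ_iff_lt_or_eq.1 h1 with h2 | rfl
        · rw [hP m, put_ne _ _ (by omega : i ≠ m), hcut]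
          have h3 := congrFun ih i
          unfold cut at h3
          rw [if_pos h2] at h3
          exact h3
        · rfl
      · rw [if_neg h1, ← hcut (m + 1)]
        unfold cut
        rw [if_neg h1]
  refine ⟨fun i => P (i + 1) i, fun m => ?_, fun m q hq => ?_⟩
  · refine ⟨y m (P m), ?_, hy1 m _, ?_⟩
    · show P (m + 1) m = _
      rw [hP, put_self]
    · rw [hY]
      exact hy2 m _
  · rw [hY] at hq ⊢
    have h1 := hy3 m (P m) q hq
    rw [hcut, ← hP, ← hY (m + 1)] at h1
    exact h1

end Pool.ICS
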