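import Pool.Agent.Work.MP_af7a01_h91.Final

/-!
# The family of oracles (MP_af7a01_lc, separation)

Level `i` has two hidden strings of length `16 d i`: the string `Y (2 i)` and the string
`Y (2 i + 1)`, whose first bit is the secret and whose rest is the witness.
-/

open Classical

namespace Pool.ICS

open Pool.IC

/-- Parameters: the hidden strings, or none. -/
abbrev Par := ℕ → Option Str

/-- The parameters below `m`. -/
def cut (m : ℕ) (Y : Par) : Par := fun i => if i < m then Y i else none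

/-- `ph j r z P`: question of index `j` with advice `r` about `z`, with padding `P`. -/
def ph (j : ℕ) (r z : Str) (P : ℕ) : Str :=
  true :: false :: false :: (List.replicate P false ++ true ::
    (List.replicate j true ++ false :: (mark r ++ false :: z)))

/-- The first level `m` with `P < 2 ^ (d m + 1)`. -/
noncomputable def mu (d : ℕ → ℕ) (P : ℕ) : ℕ := sInf {m | P < 2 ^ (d m + 1)}

/-- Data of the construction. -/
structure Dat where
  /-- sizes of the levels -/
  d : ℕ → ℕ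
  /-- questions which make a pair `j`, `z` a key -/
  E : ℕ → Str → Set Str → Finset Str
  /-- meaning of the questions -/
  G : ℕ → Str → Str → (Par → Set Str) → Par → Prop
  /-- the first level is large -/
  d0 : 20 ≤ d 0
  /-- growth -/
  grow : ∀ i, 2 ^ (d i + 1) ≤ d (i + 1)

variable (D : Dat)

/-- `j`, `z` is a key of kind `s` for the hidden strings of level `mu P`: the questions asked in
the world with `s` strings of this level touch the others. -/
def Key (V : Par → Set Str) (Y : Par) (s j : ℕ) (z : Str) (P : ℕ) : Prop :=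
  (D.E j z (V (cut (2 * mu D.d P + s) Y))).card ≤ P ∧
    ∃ q ∈ D.E j z (V (cut (2 * mu D.d P + s) Y)), q.length ^ 4 ≤ P ∧
      ∃ s' ≤ 2, s < s' ∧
        ¬ (q ∈ V (cut (2 * mu D.d P + s) Y) ↔ q ∈ V (cut (2 * mu D.d P + s') Y))

/-- How many hidden strings of level `mu P` the pair `j`, `z` opens. -/
noncomputable def opn (V : Par → Set Str) (Y : Par) (j : ℕ) (z : Str) (P : ℕ) : ℕ :=
  if Key D V Y 0 j z P then (if Key D V Y 1 j z P then 2 else 1) else 0

/-- The answer to a question of the form `ph j r z P`. -/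
def Ans (V : Par → Set Str) (Y : Par) (j : ℕ) (r z : Str) (P : ℕ) : Prop :=
  D.G j r z V (cut (2 * mu D.d P + opn D V Y j z P) Y)

/-- The strings of the oracle. -/
def Rule (V : Par → Set Str) (Y : Par) (q : Str) : Prop :=
  (∃ i z, q = mk z ∧ z.length = 16 * D.d i ∧ Y (2 * i) = some z) ∨
  (∃ i z, q = ix (i + 1) z ∧ z.length = 16 * D.d i ∧ Y (2 * i) = some z) ∨
  (∃ i z b w, q = wt b w z ∧ z.length = 16 * D.d i ∧ w.length + 1 = 16 * D.d i ∧
    Y (2 * i) = some z ∧ Y (2 * i + 1) = some (b :: w)) ∨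
  (∃ i z b w, q = fr b (2 ^ (D.d i + 1)) z ∧ z.length = 16 * D.d i ∧
    w.length + 1 = 16 * D.d i ∧ Y (2 * i) = some z ∧ Y (2 * i + 1) = some (b :: w)) ∨
  (∃ j r z P, q = ph j r z P ∧ Ans D V Y j r z P)

/-- The oracles, restricted to the strings of length less than `L`. -/
def View : ℕ → Par → Set Str
  | 0 => fun _ => ∅
  | L + 1 => fun Y => View L Y ∪ {q | q.length = L ∧ Rule D (View L) Y q}

/-- The oracle with parameters `Y`. -/
def Wor (Y : Par) : Set Str := {q | Rule D (View D q.length) Y q}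

theorem mem_Wor {Y : Par} {q : Str} : q ∈ Wor D Y ↔ Rule D (View D q.length) Y q := Iff.rfl

theorem mem_View {L : ℕ} {Y : Par} {q : Str} :
    q ∈ View D L Y ↔ q.length < L ∧ q ∈ Wor D Y := by
  induction L with
  | zero => simp [View]
  | succ L ih =>
    have h1 : q ∈ View D (L + 1) Y ↔ q ∈ View D L Y ∨ (q.length = L ∧ Rule D (View D L) Y q) :=
      Iff.rfl
    rw [h1, ih]
    constructor
    · rintro (⟨h2, h3⟩ | ⟨h2, h3⟩)
      · exact ⟨by omega, h3⟩
      · refine ⟨by omega, ?_⟩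
        rw [mem_Wor, h2]
        exact h3
    · rintro ⟨h2, h3⟩
      by_cases h4 : q.length = L
      · right
        refine ⟨h4, ?_⟩
        rw [mem_Wor, h4] at h3
        exact h3
      · exact Or.inl ⟨by omega, h3⟩

theorem opn_le (V : Par → Set Str) (Y : Par) (j : ℕ) (z : Str) (P : ℕ) :
    opn D V Y j z P ≤ 2 := by
  unfold opn
  split_ifs <;> omega

theorem not_key_opn {V : Par → Set Str} {Y : Par} {j : ℕ} {z : Str} {P : ℕ}
    (h : opn D V Y j z P < 2) : ¬ Key D V Y (opn D V Y j z P) j z P := by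
  unfold opn at h ⊢
  by_cases h0 : Key D V Y 0 j z P
  · by_cases h1 : Key D V Y 1 j z P
    · rw [if_pos h0, if_pos h1] at h
      omega
    · rw [if_pos h0, if_neg h1]
      exact h1
  · rw [if_neg h0]
    exact h0

/-! ### The forms of the strings -/

theorem ph_inj {j j' : ℕ} {r r' z z' : Str} {P P' : ℕ} (h : ph j r z P = ph j' r' z' P') :
    j = j' ∧ r = r' ∧ z = z' ∧ P = P' := by
  unfold ph at h
  simp only [List.cons.injEq, true_and] at h
  obtain ⟨h1, h2⟩ := rep_inj false P P' _ _ h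
  obtain ⟨h3, h4⟩ := rep_inj true j j' _ _ h2
  obtain ⟨h5, h6⟩ := mark_inj r r' z z' h4
  exact ⟨h3, h5, h6, h1⟩

theorem length_ph (j : ℕ) (r z : Str) (P : ℕ) :
    (ph j r z P).length = P + j + 2 * r.length + z.length + 6 := by
  simp [ph, length_mark]
  ring

theorem mk_ne_ph {z z' r : Str} {j P : ℕ} : mk z ≠ ph j r z' P := by simp [mk, ph]
theorem ix_ne_ph {z z' r : Str} {i j P : ℕ} : ix (i + 1) z ≠ ph j r z' P := by
  simp [ix, ph, List.replicate_succ]
theorem wt_ne_ph {z z' r w : Str} {b : Bool} {j P : ℕ} : wt b w z ≠ ph j r z' P := by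
  simp [wt, ph]
theorem fr_ne_ph {z z' r : Str} {b : Bool} {m j P : ℕ} : fr b m z ≠ ph j r z' P := by
  simp [fr, ph]

theorem mem_mk {Y : Par} {z : Str} :
    mk z ∈ Wor D Y ↔ ∃ i, z.length = 16 * D.d i ∧ Y (2 * i) = some z := by
  rw [mem_Wor]
  constructor
  · rintro (⟨i, z', h, h1, h2⟩ | ⟨i, z', h, -⟩ | ⟨i, z', b, w, h, -⟩ | ⟨i, z', b, w, h, -⟩ |
      ⟨j, r, z', P, h, -⟩)
    · obtain rfl := mk_inj h
      exact ⟨i, h1, h2⟩
    · exact absurd h mk_ne_ix
    · exact absurd h mk_ne_wt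
    · exact absurd h mk_ne_fr
    · exact absurd h mk_ne_ph
  · rintro ⟨i, h1, h2⟩
    exact Or.inl ⟨i, z, rfl, h1, h2⟩

theorem mem_ix {Y : Par} {i : ℕ} {z : Str} :
    ix (i + 1) z ∈ Wor D Y ↔ z.length = 16 * D.d i ∧ Y (2 * i) = some z := by
  rw [mem_Wor]
  constructor
  · rintro (⟨i, z', h, -⟩ | ⟨i', z', h, h1, h2⟩ | ⟨i, z', b, w, h, -⟩ | ⟨i, z', b, w, h, -⟩ |
      ⟨j, r, z', P, h, -⟩)
    · exact absurd h.symm mk_ne_ix
    · obtain ⟨h3, rfl⟩ := ix_inj h
      obtain rfl : i = i' := by omega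
      exact ⟨h1, h2⟩
    · exact absurd h ix_ne_wt
    · exact absurd h ix_ne_fr
    · exact absurd h ix_ne_ph
  · rintro ⟨h1, h2⟩
    exact Or.inr (Or.inl ⟨i, z, rfl, h1, h2⟩)

theorem mem_wt {Y : Par} {b : Bool} {w z : Str} :
    wt b w z ∈ Wor D Y ↔ ∃ i, z.length = 16 * D.d i ∧ w.length + 1 = 16 * D.d i ∧
      Y (2 * i) = some z ∧ Y (2 * i + 1) = some (b :: w) := by
  rw [mem_Wor]
  constructor
  · rintro (⟨i, z', h, -⟩ | ⟨i, z', h, -⟩ | ⟨i, z', b', w', h, h1⟩ | ⟨i, z', b, w, h, -⟩ |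
      ⟨j, r, z', P, h, -⟩)
    · exact absurd h.symm mk_ne_wt
    · exact absurd h.symm ix_ne_wt
    · obtain ⟨h4, h5, h6⟩ := wt_inj h
      subst h4 h5 h6
      exact ⟨i, h1⟩
    · exact absurd h wt_ne_fr
    · exact absurd h wt_ne_ph
  · rintro ⟨i, h1⟩
    exact Or.inr (Or.inr (Or.inl ⟨i, z, b, w, rfl, h1⟩))

theorem mem_fr {Y : Par} {b : Bool} {m : ℕ} {z : Str} :
    fr b m z ∈ Wor D Y ↔ ∃ i w, m = 2 ^ (D.d i + 1) ∧ z.length = 16 * D.d i ∧
      w.length + 1 = 16 * D.d i ∧ Y (2 * i) = some z ∧ Y (2 * i + 1) = some (b :: w) := by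
  rw [mem_Wor]
  constructor
  · rintro (⟨i, z', h, -⟩ | ⟨i', z', h, -⟩ | ⟨i, z', b, w, h, -⟩ | ⟨i, z', b', w, h, h1⟩ |
      ⟨j, r, z', P, h, -⟩)
    · exact absurd h.symm mk_ne_fr
    · exact absurd h.symm ix_ne_fr
    · exact absurd h.symm wt_ne_fr
    · obtain ⟨h4, h5, h6⟩ := fr_inj h
      subst h4 h6
      exact ⟨i, w, h5, h1⟩
    · exact absurd h fr_ne_ph
  · rintro ⟨i, w, rfl, h1⟩
    exact Or.inr (Or.inr (Or.inr (Or.inl ⟨i, z, b, w, rfl, h1⟩)))

theorem mem_ph {Y : Par} {j : ℕ} {r z : Str} {P : ℕ} :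
    ph j r z P ∈ Wor D Y ↔ Ans D (View D (ph j r z P).length) Y j r z P := by
  rw [mem_Wor]
  constructor
  · rintro (⟨i, z', h, -⟩ | ⟨i', z', h, -⟩ | ⟨i, z', b, w, h, -⟩ | ⟨i, z', b', w, h, -⟩ |
      ⟨j', r', z', P', h, h1⟩)
    · exact absurd h.symm mk_ne_ph
    · exact absurd h.symm ix_ne_ph
    · exact absurd h.symm wt_ne_ph
    · exact absurd h.symm fr_ne_ph
    · obtain ⟨rfl, rfl, rfl, rfl⟩ := ph_inj h
      exact h1
  · intro h1
    exact Or.inr (Or.inr (Or.inr (Or.inr ⟨j, r, z, P, rfl, h1⟩)))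

/-! ### Levels -/

theorem Dat.lt_succ (i : ℕ) : D.d i < D.d (i + 1) := by
  have h1 := D.grow i
  have h2 : D.d i < 2 ^ D.d i := Nat.lt_two_pow_self
  rw [pow_succ] at h1
  omega

theorem Dat.strictMono : StrictMono D.d := strictMono_nat_of_lt_succ D.lt_succ

theorem Dat.d_ge (i : ℕ) : 20 + i ≤ D.d i := by
  induction i with
  | zero => exact D.d0
  | succ i ih =>
    have := D.lt_succ i
    omega

theorem Dat.mono {i j : ℕ} (h : i ≤ j) : D.d i ≤ D.d j := D.strictMono.monotone h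

theorem Dat.pow_mono {i j : ℕ} (h : i ≤ j) : 2 ^ (D.d i + 1) ≤ 2 ^ (D.d j + 1) := by
  have := D.mono h
  exact Nat.pow_le_pow_right (by norm_num) (by omega)

theorem Dat.pow_le {i j : ℕ} (h : i < j) : 2 ^ (D.d i + 1) ≤ D.d j :=
  (D.grow i).trans (D.mono h)

theorem two_pow_big {n : ℕ} (h : 20 ≤ n) : 1000 * n ≤ 2 ^ n := by
  induction n, h using Nat.le_induction with
  | base => norm_num
  | succ n hn ih =>
    rw [pow_succ]
    omega

theorem Dat.pow_big (i : ℕ) : 1000 * D.d i ≤ 2 ^ D.d i := two_pow_big (by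
  have := D.d_ge i
  omega)

theorem Dat.pow_succ' (i : ℕ) : 2 ^ (D.d i + 1) = 2 ^ D.d i + 2 ^ D.d i := by
  rw [pow_succ]
  ring

theorem mu_spec (P : ℕ) : P < 2 ^ (D.d (mu D.d P) + 1) := by
  have h : ({m | P < 2 ^ (D.d m + 1)} : Set ℕ).Nonempty := by
    refine ⟨P, ?_⟩
    have h1 := D.d_ge P
    have h2 : D.d P < 2 ^ D.d P := Nat.lt_two_pow_self
    have h3 := D.pow_succ' P
    show P < 2 ^ (D.d P + 1)
    omega
  exact Nat.sInf_mem h

theorem mu_le {P m : ℕ} (h : P < 2 ^ (D.d m + 1)) : mu D.d P ≤ m := Nat.sInf_le h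

theorem mu_mono {P P' : ℕ} (h : P ≤ P') : mu D.d P ≤ mu D.d P' :=
  mu_le D (lt_of_le_of_lt h (mu_spec D P'))

/-! ### Truncation of the parameters -/

theorem cut_of_le {m M : ℕ} {Y Y' : Par} (h : cut M Y = cut M Y') (hm : m ≤ M) :
    cut m Y = cut m Y' := by
  funext i
  have h1 := congrFun h i
  unfold cut at h1 ⊢
  by_cases hi : i < m
  · rw [if_pos hi, if_pos hi]
    rwa [if_pos (lt_of_lt_of_le hi hm), if_pos (lt_of_lt_of_le hi hm)] at h1
  · rw [if_neg hi, if_neg hi]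

theorem cut_apply {M i : ℕ} {Y Y' : Par} (h : cut M Y = cut M Y') (hi : i < M) : Y i = Y' i := by
  have h1 := congrFun h i
  unfold cut at h1
  rwa [if_pos hi, if_pos hi] at h1

theorem cut_cut {m M : ℕ} (Y : Par) (h : m ≤ M) : cut m (cut M Y) = cut m Y := by
  funext i
  unfold cut
  by_cases hi : i < m
  · rw [if_pos hi, if_pos hi, if_pos (lt_of_lt_of_le hi h)]
  · rw [if_neg hi, if_neg hi]

theorem cut_cut' {m M : ℕ} (Y : Par) (h : M ≤ m) : cut m (cut M Y) = cut M Y := by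
  funext i
  unfold cut
  by_cases hi : i < m
  · rw [if_pos hi]
  · rw [if_neg hi, if_neg (by omega)]

theorem key_congr {V : Par → Set Str} {Y Y' : Par} {s j : ℕ} {z : Str} {P : ℕ} (hs : s ≤ 2)
    (h : cut (2 * mu D.d P + 2) Y = cut (2 * mu D.d P + 2) Y') :
    Key D V Y s j z P ↔ Key D V Y' s j z P := by
  unfold Key
  rw [cut_of_le h (show 2 * mu D.d P + s ≤ _ by omega)]
  refine and_congr_right fun _ => exists_congr fun q => and_congr_right fun _ =>
    and_congr_right fun _ => exists_congr fun s' => and_congr_right fun hs' => ?_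
  rw [cut_of_le h (show 2 * mu D.d P + s' ≤ _ by omega)]

theorem ans_congr {V : Par → Set Str} {Y Y' : Par} {j : ℕ} {r z : Str} {P : ℕ}
    (h : cut (2 * mu D.d P + 2) Y = cut (2 * mu D.d P + 2) Y') :
    Ans D V Y j r z P ↔ Ans D V Y' j r z P := by
  have h1 : opn D V Y j z P = opn D V Y' j z P := by
    unfold opn
    rw [key_congr D (by norm_num) h, key_congr D (by norm_num) h]
  have h2 := opn_le D V Y' j z P
  unfold Ans
  rw [h1, cut_of_le h (show 2 * mu D.d P + opn D V Y' j z P ≤ _ by omega)]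

/-- Strings of length less than `2 ^ (d m + 1)` do not see the levels above `m`. -/
theorem loc_imp {m : ℕ} {Y Y' : Par} (h : cut (2 * m + 2) Y = cut (2 * m + 2) Y') {q : Str}
    (hq : q.length < 2 ^ (D.d m + 1)) (hY : q ∈ Wor D Y) : q ∈ Wor D Y' := by
  have hlev : ∀ i, 16 * D.d i < 2 ^ (D.d m + 1) → 2 * i + 1 < 2 * m + 2 := by
    intro i hi
    by_contra h1
    have := D.pow_le (show m < i by omega)
    omega
  rcases hY with ⟨i, z, rfl, h1, h2⟩ | ⟨i, z, rfl, h1, h2⟩ | ⟨i, z, b, w, rfl, h1, h2, h3, h4⟩ |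
    ⟨i, z, b, w, rfl, h1, h2, h3, h4⟩ | ⟨j, r, z, P, rfl, h1⟩
  · rw [length_mk] at hq
    have := hlev i (by omega)
    rw [mem_mk]
    refine ⟨i, h1, ?_⟩
    rw [← cut_apply h (show 2 * i < _ by omega), h2]
  · rw [length_ix] at hq
    have := hlev i (by omega)
    rw [mem_ix]
    refine ⟨h1, ?_⟩
    rw [← cut_apply h (show 2 * i < _ by omega), h2]
  · rw [length_wt] at hq
    have := hlev i (by omega)
    rw [mem_wt]
    refine ⟨i, h1, h2, ?_, ?_⟩
    · rw [← cut_apply h (show 2 * i < _ by omega), h3]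
    · rw [← cut_apply h (show 2 * i + 1 < _ by omega), h4]
  · rw [length_fr] at hq
    have hp0 := Nat.zero_le (2 ^ D.d i)
    have := hlev i (by omega)
    rw [mem_fr]
    refine ⟨i, w, rfl, h1, h2, ?_, ?_⟩
    · rw [← cut_apply h (show 2 * i < _ by omega), h3]
    · rw [← cut_apply h (show 2 * i + 1 < _ by omega), h4]
  · have hq' := hq
    rw [length_ph] at hq'
    have hmu : mu D.d P ≤ m := mu_le D (by omega)
    rw [mem_ph]
    exact (ans_congr D (cut_of_le h (by omega))).1 h1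

theorem loc {m : ℕ} {Y : Par} {q : Str} (hq : q.length < 2 ^ (D.d m + 1)) :
    q ∈ Wor D Y ↔ q ∈ Wor D (cut (2 * m + 2) Y) := by
  have h : cut (2 * m + 2) (cut (2 * m + 2) Y) = cut (2 * m + 2) Y := cut_cut Y le_rfl
  exact ⟨loc_imp D h.symm hq, loc_imp D h hq⟩

theorem pow_four_le {l P : ℕ} (h : l ^ 4 ≤ P) : l ≤ P ∧ l ^ 2 ≤ P := by
  rcases Nat.eq_zero_or_pos l with h0 | h0
  · subst h0
    simp
  · exact ⟨(Nat.le_self_pow (by norm_num) l).trans h,
      (Nat.pow_le_pow_right h0 (by norm_num)).trans h⟩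

/-- Strings of length at most `16 d m` do not see the levels from `m` on. -/
theorem pub_imp (m : ℕ) (L : ℕ) : ∀ (Y Y' : Par), cut (2 * m) Y = cut (2 * m) Y' → ∀ q : Str,
    q.length = L → q.length ≤ 16 * D.d m → q ∈ Wor D Y → q ∈ Wor D Y' := by
  induction L using Nat.strong_induction_on with
  | _ L ih =>
  intro Y Y' h q hL hq hY
  have hbig := D.pow_big m
  have hps := D.pow_succ' m
  have hlev : ∀ i, 16 * D.d i < 16 * D.d m → 2 * i + 1 < 2 * m := by
    intro i hi
    by_contra h1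
    have := D.mono (show m ≤ i by omega)
    omega
  rcases hY with ⟨i, z, rfl, h1, h2⟩ | ⟨i, z, rfl, h1, h2⟩ | ⟨i, z, b, w, rfl, h1, h2, h3, h4⟩ |
    ⟨i, z, b, w, rfl, h1, h2, h3, h4⟩ | ⟨j, r, z, P, rfl, h1⟩
  · rw [length_mk] at hq
    have := hlev i (by omega)
    rw [mem_mk]
    refine ⟨i, h1, ?_⟩
    rw [← cut_apply h (show 2 * i < _ by omega), h2]
  · rw [length_ix] at hq
    have := hlev i (by omega)
    rw [mem_ix]
    refine ⟨h1, ?_⟩
    rw [← cut_apply h (show 2 * i < _ by omega), h2]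
  · rw [length_wt] at hq
    have := hlev i (by omega)
    rw [mem_wt]
    refine ⟨i, h1, h2, ?_, ?_⟩
    · rw [← cut_apply h (show 2 * i < _ by omega), h3]
    · rw [← cut_apply h (show 2 * i + 1 < _ by omega), h4]
  · rw [length_fr] at hq
    have hp0 := Nat.zero_le (2 ^ D.d i)
    have := hlev i (by omega)
    rw [mem_fr]
    refine ⟨i, w, rfl, h1, h2, ?_, ?_⟩
    · rw [← cut_apply h (show 2 * i < _ by omega), h3]
    · rw [← cut_apply h (show 2 * i + 1 < _ by omega), h4]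
  · have hq' := hq
    rw [length_ph] at hq'
    have hmu : mu D.d P ≤ m := mu_le D (by omega)
    rcases Nat.lt_or_ge (mu D.d P) m with hlt | hge
    · rw [mem_ph]
      exact (ans_congr D (cut_of_le h (by omega))).1 h1
    · have hm : mu D.d P = m := by omega
      rw [mem_ph]
      -- no key
      have hnk : ∀ Z : Par, ¬ Key D (View D (ph j r z P).length) Z 0 j z P := by
        rintro Z ⟨-, q', -, hq2, s', hs', -, hne⟩
        apply hne
        rw [hm, mem_View, mem_View]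
        have hz1 : cut (2 * m) (cut (2 * m + 0) Z) = cut (2 * m) (cut (2 * m + s') Z) := by
          rw [cut_cut Z (by omega), cut_cut Z (by omega)]
        have hlen := (pow_four_le hq2).1
        constructor
        · rintro ⟨h3, h4⟩
          exact ⟨h3, ih q'.length (by omega) _ _ hz1 q' rfl (by omega) h4⟩
        · rintro ⟨h3, h4⟩
          exact ⟨h3, ih q'.length (by omega) _ _ hz1.symm q' rfl (by omega) h4⟩
      unfold Ans opn at h1 ⊢
      rw [if_neg (hnk _)] at h1 ⊢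
      rw [hm, Nat.add_zero] at h1 ⊢
      rw [← h]
      exact h1

theorem pub {m : ℕ} {Y Y' : Par} (h : cut (2 * m) Y = cut (2 * m) Y') {q : Str}
    (hq : q.length ≤ 16 * D.d m) : q ∈ Wor D Y ↔ q ∈ Wor D Y' :=
  ⟨pub_imp D m q.length Y Y' h q rfl hq, pub_imp D m q.length Y' Y h.symm q rfl hq⟩

end Pool.ICS
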