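import Pool.Agent.Work.MP_af7a01_sep.Oracle

/-!
# The program that asks `ph j r z P` with polynomial padding `P = (|z| + 2) ^ b`
-/

open Classical

namespace Pool.ICS

open Pool.IC

section
variable (B : Set Str) (a b c d e f g : Str) (x : Bool)

theorem push1 : ExecLe B (Cmd.push 1 x) (st a b c d e f g) 1 (st a (x :: b) c d e f g) :=
  ⟨1, le_rfl, by have := exec_push B 1 x (st a b c d e f g); rwa [upd1] at this⟩

end

/-- For every bit of stack 2: pop it, push `true` on stack 1 and move one bit of stack 0 to
stack 5. -/
def adv : Cmd :=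
  Cmd.loop 2 (Cmd.seq (Cmd.pop 2) (Cmd.seq (Cmd.push 1 true) (Cmd.branch 0 Cmd.skip
    (Cmd.seq (Cmd.pop 0) (Cmd.push 5 false)) (Cmd.seq (Cmd.pop 0) (Cmd.push 5 true)))))

theorem adv_spec (B : Set Str) (d e g : Str) (r z f : Str) (m : ℕ) :
    ExecLe B adv (st r (List.replicate m true) z d e f g) (9 * z.length + 1)
      (st (r.drop z.length) (List.replicate (m + z.length) true) [] d e
        ((r.take z.length).reverse ++ f) g) := by
  unfold adv
  induction z generalizing r f m with
  | nil =>
    simp only [List.length_nil, List.drop_zero, List.take_zero, List.reverse_nil,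
      List.nil_append, Nat.add_zero]
    exact ExecLe.loop_nil rfl
  | cons x z ih =>
    cases r with
    | nil =>
      have h1 : ExecLe B (Cmd.seq (Cmd.pop 2) (Cmd.seq (Cmd.push 1 true) (Cmd.branch 0 Cmd.skip
          (Cmd.seq (Cmd.pop 0) (Cmd.push 5 false)) (Cmd.seq (Cmd.pop 0) (Cmd.push 5 true)))))
          (st [] (List.replicate m true) (x :: z) d e f g) 8
          (st [] (List.replicate (m + 1) true) z d e f g) :=
        ((pop2 B [] _ (x :: z) d e f g).seq ((push1 B [] _ z d e f g true).seq
          (ExecLe.branch_nil rfl (le_skip B _)))).mono (by norm_num)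
      have h2 := (ExecLe.loop_step (i := 2) (by simp [st]) h1 (ih [] f (m + 1))).mono
        (n := 9 * (x :: z).length + 1) (by simp only [List.length_cons]; omega)
      have h3 : m + 1 + z.length = m + (x :: z).length := by
        simp only [List.length_cons]
        omega
      rw [h3] at h2
      simpa using h2
    | cons y r =>
      have h1 : ExecLe B (Cmd.seq (Cmd.pop 2) (Cmd.seq (Cmd.push 1 true) (Cmd.branch 0 Cmd.skip
          (Cmd.seq (Cmd.pop 0) (Cmd.push 5 false)) (Cmd.seq (Cmd.pop 0) (Cmd.push 5 true)))))
          (st (y :: r) (List.replicate m true) (x :: z) d e f g) 8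
          (st r (List.replicate (m + 1) true) z d e (y :: f) g) := by
        refine (((pop2 B (y :: r) _ (x :: z) d e f g).seq ((push1 B (y :: r) _ z d e f g true).seq
          (ExecLe.branch_cons (b := y) (l := r) (n := 3) rfl ?_)))).mono (by norm_num)
        cases y
        · exact (pop0 B (false :: r) _ z d e f g).seq (push5 B r _ z d e f g false)
        · exact (pop0 B (true :: r) _ z d e f g).seq (push5 B r _ z d e f g true)
      have h2 := (ExecLe.loop_step (i := 2) (by simp [st]) h1 (ih r (y :: f) (m + 1))).mono
        (n := 9 * (x :: z).length + 1) (by simp only [List.length_cons]; omega)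
      have h3 : m + 1 + z.length = m + (x :: z).length := by
        simp only [List.length_cons]
        omega
      rw [h3] at h2
      simpa using h2

/-- Move stack 1 to the stacks 5 and 2. -/
def dup : Cmd := Cmd.loop 1 (Cmd.seq (Cmd.pop 1) (Cmd.seq (Cmd.push 5 true) (Cmd.push 2 true)))

theorem rep_cons_true (n : ℕ) (l : Str) :
    List.replicate n true ++ true :: l = List.replicate (n + 1) true ++ l := by
  rw [List.replicate_succ']
  simp

theorem dup_spec (B : Set Str) (a c d e f g : Str) (n : ℕ) :
    ExecLe B dup (st a (List.replicate n true) c d e f g) (6 * n + 1)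
      (st a [] (List.replicate n true ++ c) d e (List.replicate n true ++ f) g) := by
  unfold dup
  induction n generalizing c f with
  | zero => exact ExecLe.loop_nil rfl
  | succ n ih =>
    have h1 : ExecLe B (Cmd.seq (Cmd.pop 1) (Cmd.seq (Cmd.push 5 true) (Cmd.push 2 true)))
        (st a (List.replicate (n + 1) true) c d e f g) 5
        (st a (List.replicate n true) (true :: c) d e (true :: f) g) :=
      (pop1 B a (List.replicate (n + 1) true) c d e f g).seq
        ((push5 B a (List.replicate n true) c d e f g true).seq
          (push2 B a (List.replicate n true) c d e (true :: f) g true))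
    have h2 := (ExecLe.loop_step (i := 1) (by simp [st]) h1 (ih (true :: c) (true :: f))).mono
      (n := 6 * (n + 1) + 1) (by omega)
    rw [rep_cons_true, rep_cons_true] at h2
    exact h2

/-- Move stack 5 to stack 1. -/
def bak : Cmd := Cmd.loop 5 (Cmd.seq (Cmd.pop 5) (Cmd.push 1 true))

theorem bak_spec (B : Set Str) (a b c d e g : Str) (n : ℕ) :
    ExecLe B bak (st a b c d e (List.replicate n true) g) (4 * n + 1)
      (st a (List.replicate n true ++ b) c d e [] g) := by
  unfold bak
  induction n generalizing b with
  | zero => exact ExecLe.loop_nil rfl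
  | succ n ih =>
    have h1 : ExecLe B (Cmd.seq (Cmd.pop 5) (Cmd.push 1 true))
        (st a b c d e (List.replicate (n + 1) true) g) 3
        (st a (true :: b) c d e (List.replicate n true) g) :=
      (pop5 B a b c d e (List.replicate (n + 1) true) g).seq
        (push1 B a b c d e (List.replicate n true) g true)
    have h2 := (ExecLe.loop_step (i := 5) (by simp [st]) h1 (ih (true :: b))).mono
      (n := 4 * (n + 1) + 1) (by omega)
    rw [rep_cons_true] at h2
    exact h2

/-- Move stack 2 to stack 6. -/
def col : Cmd := Cmd.loop 2 (Cmd.seq (Cmd.pop 2) (Cmd.push 6 true))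

theorem col_spec (B : Set Str) (a b d e f g : Str) (n : ℕ) :
    ExecLe B col (st a b (List.replicate n true) d e f g) (4 * n + 1)
      (st a b [] d e f (List.replicate n true ++ g)) := by
  unfold col
  induction n generalizing g with
  | zero => exact ExecLe.loop_nil rfl
  | succ n ih =>
    have h1 : ExecLe B (Cmd.seq (Cmd.pop 2) (Cmd.push 6 true))
        (st a b (List.replicate (n + 1) true) d e f g) 3
        (st a b (List.replicate n true) d e f (true :: g)) :=
      (pop2 B a b (List.replicate (n + 1) true) d e f g).seq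
        (push6 B a b (List.replicate n true) d e f g true)
    have h2 := (ExecLe.loop_step (i := 2) (by simp [st]) h1 (ih (true :: g))).mono
      (n := 4 * (n + 1) + 1) (by omega)
    rw [rep_cons_true] at h2
    exact h2

/-- Stack 2 becomes the product of the stacks 6 and 1 (in unary). -/
def mulA : Cmd := Cmd.loop 6 (Cmd.seq (Cmd.pop 6) (Cmd.seq dup bak))

theorem mulA_spec (B : Set Str) (a d e : Str) (n m l : ℕ) :
    ExecLe B mulA (st a (List.replicate n true) (List.replicate l true) d e []
        (List.replicate m true)) (m * (10 * n + 6) + 1)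
      (st a (List.replicate n true) (List.replicate (m * n + l) true) d e [] []) := by
  unfold mulA
  induction m generalizing l with
  | zero =>
    simp only [Nat.zero_mul, Nat.zero_add]
    exact ExecLe.loop_nil rfl
  | succ m ih =>
    have h1 : ExecLe B (Cmd.seq (Cmd.pop 6) (Cmd.seq dup bak))
        (st a (List.replicate n true) (List.replicate l true) d e [] (List.replicate (m + 1) true))
        (10 * n + 5)
        (st a (List.replicate n true) (List.replicate (n + l) true) d e []
          (List.replicate m true)) := by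
      have h2 := dup_spec B a (List.replicate l true) d e [] (List.replicate m true) n
      have h3 := bak_spec B a [] (List.replicate n true ++ List.replicate l true) d e
        (List.replicate m true) n
      rw [List.append_nil] at h2 h3
      have h4 := ((pop6 B a (List.replicate n true) (List.replicate l true) d e []
        (List.replicate (m + 1) true)).seq (h2.seq h3)).mono (n := 10 * n + 5) (by omega)
      rw [← List.replicate_add] at h4
      exact h4
    have h5 := (ExecLe.loop_step (i := 6) (by simp [st]) h1 (ih (n + l))).mono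
      (n := (m + 1) * (10 * n + 6) + 1) (by
        have : (m + 1) * (10 * n + 6) = m * (10 * n + 6) + (10 * n + 6) := by ring
        omega)
    have h6 : m * n + (n + l) = (m + 1) * n + l := by ring
    rw [h6] at h5
    exact h5

/-- Multiply stack 6 by stack 1 (in unary). -/
def mulB : Cmd := Cmd.seq mulA col

theorem mulB_spec (B : Set Str) (a d e : Str) (n m : ℕ) :
    ExecLe B mulB (st a (List.replicate n true) [] d e [] (List.replicate m true))
      (m * (14 * n + 6) + 3)
      (st a (List.replicate n true) [] d e [] (List.replicate (m * n) true)) := by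
  have h1 := mulA_spec B a d e n m 0
  have h2 := col_spec B a (List.replicate n true) d e [] [] (m * n)
  rw [List.append_nil] at h2
  rw [Nat.add_zero] at h1
  exact (h1.seq h2).mono (by
    have : m * (14 * n + 6) = m * (10 * n + 6) + 4 * (m * n) := by ring
    omega)

/-- `b` multiplications. -/
def powB : ℕ → Cmd
  | 0 => Cmd.skip
  | b + 1 => Cmd.seq (powB b) mulB

theorem powB_spec (B : Set Str) (a d e : Str) (n b : ℕ) (hn : 1 ≤ n) :
    ExecLe B (powB b) (st a (List.replicate n true) [] d e [] [true])
      (b * (25 * n ^ (b + 1)) + 1)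
      (st a (List.replicate n true) [] d e [] (List.replicate (n ^ b) true)) := by
  induction b with
  | zero =>
    simp only [Nat.zero_mul, Nat.zero_add, pow_zero]
    exact le_skip B _
  | succ b ih =>
    have h1 := mulB_spec B a d e n (n ^ b)
    have h2 := ih.seq h1
    rw [← pow_succ] at h2
    refine h2.mono ?_
    have h3 : 1 ≤ n ^ b := Nat.one_le_pow _ _ hn
    have h4 : n ^ (b + 1) = n ^ b * n := pow_succ n b
    have h5 : n ^ (b + 1 + 1) = n ^ (b + 1) * n := pow_succ n (b + 1)
    have h6 : n ^ (b + 1) ≤ n ^ (b + 1 + 1) := Nat.pow_le_pow_right hn (by omega)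
    have h7 : b * (25 * n ^ (b + 1)) ≤ b * (25 * n ^ (b + 1 + 1)) :=
      Nat.mul_le_mul_left _ (Nat.mul_le_mul_left _ h6)
    have h8 : n ^ b ≤ n ^ (b + 1) := Nat.pow_le_pow_right hn (by omega)
    have h9 : (b + 1) * (25 * n ^ (b + 1 + 1)) = b * (25 * n ^ (b + 1 + 1)) +
        25 * n ^ (b + 1 + 1) := by ring
    have h10 : n ^ b * (14 * n + 6) = 14 * n ^ (b + 1) + 6 * n ^ b := by
      rw [h4]
      ring
    omega

/-- Push one `false` on stack 4 for every bit of stack 6. -/
def padC : Cmd := Cmd.loop 6 (Cmd.seq (Cmd.pop 6) (Cmd.push 4 false))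

theorem padC_spec (B : Set Str) (a b c d e f : Str) (n : ℕ) :
    ExecLe B padC (st a b c d e f (List.replicate n true)) (4 * n + 1)
      (st a b c d (List.replicate n false ++ e) f []) := by
  unfold padC
  induction n generalizing e with
  | zero => exact ExecLe.loop_nil rfl
  | succ n ih =>
    have h1 : ExecLe B (Cmd.seq (Cmd.pop 6) (Cmd.push 4 false))
        (st a b c d e f (List.replicate (n + 1) true)) 3
        (st a b c d (false :: e) f (List.replicate n true)) :=
      (pop6 B a b c d e f (List.replicate (n + 1) true)).seq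
        (push4 B a b c d e f (List.replicate n true) false)
    have h2 := (ExecLe.loop_step (i := 6) (by simp [st]) h1 (ih (false :: e))).mono
      (n := 4 * (n + 1) + 1) (by omega)
    have h3 : List.replicate n false ++ false :: e = List.replicate (n + 1) false ++ e := by
      rw [List.replicate_succ']
      simp
    rw [h3] at h2
    exact h2

/-- Push `j` times `true` on stack 4. -/
def pushN : ℕ → Cmd
  | 0 => Cmd.skip
  | j + 1 => Cmd.seq (pushN j) (Cmd.push 4 true)

theorem pushN_spec (B : Set Str) (a b c d e f g : Str) (j : ℕ) :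
    ExecLe B (pushN j) (st a b c d e f g) (2 * j + 1)
      (st a b c d (List.replicate j true ++ e) f g) := by
  induction j with
  | zero => exact le_skip B _
  | succ j ih =>
    have h1 := (ih.seq (push4 B a b c d (List.replicate j true ++ e) f g true)).mono
      (n := 2 * (j + 1) + 1) (by omega)
    rw [List.replicate_succ, List.cons_append]
    exact h1

/-- Second part of the program: stack 0 is empty. -/
def phTail (j b : ℕ) : Cmd :=
  Cmd.seq mvMark (Cmd.seq (Cmd.push 4 false) (Cmd.seq (pushN j) (Cmd.seq (Cmd.push 4 true)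
    (Cmd.seq (Cmd.push 1 true) (Cmd.seq (Cmd.push 1 true) (Cmd.seq (Cmd.push 6 true)
      (Cmd.seq (powB b) (Cmd.seq padC (Cmd.seq (Cmd.push 4 false) (Cmd.seq (Cmd.push 4 false)
        (Cmd.seq (Cmd.push 4 true)
          (Cmd.ask 4 (Cmd.push 3 true) (Cmd.push 3 false)))))))))))))

/-- The program that asks `ph j r z ((|z| + 2) ^ b)` if `|r| ≤ |z|`. -/
def phProg (j b : ℕ) : Cmd :=
  Cmd.seq cp (Cmd.seq (Cmd.push 4 false) (Cmd.seq adv
    (Cmd.branch 0 (phTail j b) (Cmd.push 3 false) (Cmd.push 3 false))))

theorem phTail_spec (B : Set Str) (j b : ℕ) (r z : Str) :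
    ∃ s', ExecLe B (phTail j b) (st [] (List.replicate z.length true) [] [] (false :: z)
      r.reverse []) (7 * r.length + 2 * j + (b + 1) * (25 * (z.length + 2) ^ (b + 1)) + 40) s' ∧
      s' 3 = [decide (ph j r z ((z.length + 2) ^ b) ∈ B)] := by
  unfold phTail
  have h1 := mvMark_spec B [] (List.replicate z.length true) [] [] [] (false :: z) r.reverse
  rw [List.reverse_reverse, List.length_reverse] at h1
  have h2 := pushN_spec B [] (List.replicate z.length true) [] []
    (false :: (mark r ++ false :: z)) [] [] j
  have h3 := powB_spec B [] [] (true :: (List.replicate j true ++ false ::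
    (mark r ++ false :: z))) (z.length + 2) b (by omega)
  have h4 := padC_spec B [] (List.replicate (z.length + 2) true) [] []
    (true :: (List.replicate j true ++ false :: (mark r ++ false :: z))) []
    ((z.length + 2) ^ b)
  have hb : (z.length + 2) ^ b ≤ (z.length + 2) ^ (b + 1) :=
    Nat.pow_le_pow_right (by omega) (by omega)
  have hb2 : (b + 1) * (25 * (z.length + 2) ^ (b + 1)) =
    b * (25 * (z.length + 2) ^ (b + 1)) + 25 * (z.length + 2) ^ (b + 1) := by ring
  by_cases h : ph j r z ((z.length + 2) ^ b) ∈ B
  · refine ⟨st [] (List.replicate (z.length + 2) true) [] [true]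
      (ph j r z ((z.length + 2) ^ b)) [] [], ?_, by simp [h, st]⟩
    exact (h1.seq ((push4 B _ _ _ _ _ _ _ false).seq (h2.seq ((push4 B _ _ _ _ _ _ _ true).seq
      ((push1 B _ _ _ _ _ _ _ true).seq ((push1 B _ _ _ _ _ _ _ true).seq
      ((push6 B _ _ _ _ _ _ _ true).seq (h3.seq (h4.seq ((push4 B _ _ _ _ _ _ _ false).seq
      ((push4 B _ _ _ _ _ _ _ false).seq ((push4 B _ _ _ _ _ _ _ true).seq
      (ask4_yes h (push3 B _ _ _ _ _ _ _ true)))))))))))))).mono (by omega)
  · refine ⟨st [] (List.replicate (z.length + 2) true) [] [false]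
      (ph j r z ((z.length + 2) ^ b)) [] [], ?_, by simp [h, st]⟩
    exact (h1.seq ((push4 B _ _ _ _ _ _ _ false).seq (h2.seq ((push4 B _ _ _ _ _ _ _ true).seq
      ((push1 B _ _ _ _ _ _ _ true).seq ((push1 B _ _ _ _ _ _ _ true).seq
      ((push6 B _ _ _ _ _ _ _ true).seq (h3.seq (h4.seq ((push4 B _ _ _ _ _ _ _ false).seq
      ((push4 B _ _ _ _ _ _ _ false).seq ((push4 B _ _ _ _ _ _ _ true).seq
      (ask4_no h (push3 B _ _ _ _ _ _ _ false)))))))))))))).mono (by omega)

theorem phProg_spec (B : Set Str) (j b : ℕ) (r z : Str) :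
    ∃ s', ExecLe B (phProg j b) (st r [] z [] [] [] [])
      (28 * z.length + 2 * j + (b + 1) * (25 * (z.length + 2) ^ (b + 1)) + 60) s' ∧
      s' 3 = [decide (r.length ≤ z.length ∧ ph j r z ((z.length + 2) ^ b) ∈ B)] := by
  unfold phProg
  have h1 := cp_spec B r [] z [] []
  have h2 := adv_spec B [] (false :: z) [] r z [] 0
  rw [Nat.zero_add, List.append_nil] at h2
  by_cases h : r.length ≤ z.length
  · rw [List.drop_eq_nil_of_le h, List.take_of_length_le h] at h2
    obtain ⟨s', h3, h4⟩ := phTail_spec B j b r z
    refine ⟨s', ?_, ?_⟩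
    · exact (h1.seq ((push4 B _ _ _ _ _ _ _ false).seq (h2.seq
        (ExecLe.branch_nil rfl h3)))).mono (by omega)
    · rw [h4]
      simp [h]
  · obtain ⟨y, l, hl⟩ : ∃ y l, r.drop z.length = y :: l := by
      cases hd : r.drop z.length with
      | nil => exact absurd (List.drop_eq_nil_iff.1 hd) h
      | cons y l => exact ⟨y, l, rfl⟩
    rw [hl] at h2
    refine ⟨st (y :: l) (List.replicate z.length true) [] [false] (false :: z)
      (r.take z.length).reverse [], ?_, ?_⟩
    · refine (h1.seq ((push4 B _ _ _ _ _ _ _ false).seq (h2.seq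
        (ExecLe.branch_cons (b := y) (l := l) (n := 1) rfl ?_)))).mono (by omega)
      cases y <;> exact push3 B _ _ _ _ _ _ _ false
    · simp [h, st]

/-- Time bound of the program. -/
noncomputable def phTime (j b : ℕ) : Polynomial ℕ :=
  Polynomial.C 28 * Polynomial.X + Polynomial.C (2 * j + 60) +
    Polynomial.C (25 * (b + 1)) * (Polynomial.X + Polynomial.C 2) ^ (b + 1)

theorem phTime_eval (j b n : ℕ) : (phTime j b).eval n =
    28 * n + 2 * j + (b + 1) * (25 * (n + 2) ^ (b + 1)) + 60 := by
  unfold phTime
  simp only [Polynomial.eval_add, Polynomial.eval_mul, Polynomial.eval_C, Polynomial.eval_X,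
    Polynomial.eval_pow]
  ring

theorem out_phProg (B : Set Str) (j b : ℕ) (r z : Str) {n : ℕ}
    (hn : (phTime j b).eval z.length ≤ n) :
    out B (phProg j b) r [] z n =
      some [decide (r.length ≤ z.length ∧ ph j r z ((z.length + 2) ^ b) ∈ B)] := by
  obtain ⟨s', ⟨m, hm, h1⟩, h2⟩ := phProg_spec B j b r z
  rw [← init_eq] at h1
  rw [phTime_eval] at hn
  rw [out_of_exec h1 (hm.trans hn), h2]

end Pool.ICS
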