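import Pool.Agent.Work.MP_af7a01_sep.Data
import Pool.Agent.Work.MP_af7a01_sep.Prog

/-!
# The CD-version holds relative to the oracle: meaning of the questions
-/

open Classical

namespace Pool.ICS

open Pool.IC

theorem exists_tt (t : Polynomial ℕ) : ∃ a, ∀ n, t.eval n ≤ tt a n := by
  induction t using Polynomial.induction_on' with
  | add p q hp hq =>
    obtain ⟨a, ha⟩ := hp
    obtain ⟨b, hb⟩ := hq
    refine ⟨max a b + 1, fun n => ?_⟩
    rw [Polynomial.eval_add]
    have h1 : tt a n ≤ (n + 2) ^ max a b := Nat.pow_le_pow_right (by omega) (le_max_left _ _)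
    have h2 : tt b n ≤ (n + 2) ^ max a b := Nat.pow_le_pow_right (by omega) (le_max_right _ _)
    have h3 : tt (max a b + 1) n = (n + 2) ^ max a b * (n + 2) := pow_succ _ _
    have h4 : (n + 2) ^ max a b * 2 ≤ (n + 2) ^ max a b * (n + 2) :=
      Nat.mul_le_mul_left _ (by omega)
    have h5 := ha n
    have h6 := hb n
    omega
  | monomial k c =>
    refine ⟨c + k, fun n => ?_⟩
    rw [Polynomial.eval_monomial]
    unfold tt
    rw [pow_add]
    refine Nat.mul_le_mul ?_ (Nat.pow_le_pow_left (by omega) k)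
    calc c ≤ 2 ^ c := Nat.lt_two_pow_self.le
      _ ≤ (n + 2) ^ c := Nat.pow_le_pow_left (by omega) c

theorem ic_anti {U : Interpreter} {B A : Set Str} {s t : ℕ → ℕ} (h : ∀ n, s n ≤ t n) (x : Str) :
    ic U B t x A ≤ ic U B s x A := by
  unfold ic
  refine le_iInf₂ fun p hp => iInf₂_le_of_le p ?_ le_rfl
  obtain ⟨h1, h2⟩ := hp
  refine ⟨fun z => ?_, U.mono _ _ _ _ _ _ _ (h _) h2⟩
  rcases h1 z with h3 | h3
  · exact Or.inl (U.mono _ _ _ _ _ _ _ (h _) h3)
  · exact Or.inr (U.mono _ _ _ _ _ _ _ (h _) h3)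

theorem infinite_of_length {S : Set Str} (h : ∀ K : ℕ, ∃ x ∈ S, K ≤ x.length) : S.Infinite := by
  intro hfin
  obtain ⟨x, hx, hK⟩ := h ((hfin.toFinset.sup List.length) + 1)
  have := Finset.le_sup (f := List.length) (hfin.mem_toFinset.2 hx)
  omega

/-- A program that asks one question shows that a set is in P. -/
theorem inP_of_ph {W A : Set Str} {j a : ℕ} (h : ∀ z : Str, ph j [] z (pd a z.length) ∈ W ↔ z ∈ A) :
    InP W A := by
  refine ⟨phTime j (4 * a + 8), phProg j (4 * a + 8), fun z => ?_⟩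
  rw [out_phProg W j (4 * a + 8) [] z le_rfl]
  unfold chi
  congr 2
  rw [decide_eq_decide]
  constructor
  · rintro ⟨-, h1⟩
    exact (h z).1 h1
  · intro h1
    exact ⟨Nat.zero_le _, (h z).2 h1⟩

/-- A program that asks one question bounds the CD-complexity. -/
theorem exists_CD (U : Interpreter) (j a : ℕ) : ∃ (t' : Polynomial ℕ) (c : ℕ), ∀ (W : Set Str)
    (r x : Str), (∀ z : Str, (r.length ≤ z.length ∧ ph j r z (pd a z.length) ∈ W) ↔ z = x) →
    CD U W (fun n => t'.eval n) x ≤ ((c + r.length : ℕ) : ℕ∞) := by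
  obtain ⟨e, q, he⟩ := U.sim (phProg j (4 * a + 8))
  refine ⟨q.comp (phTime j (4 * a + 8)), e.length, fun W r x h => ?_⟩
  unfold CD
  refine iInf₂_le_of_le (e ++ r) ?_ ?_
  · intro z
    have h1 := he W r [] z _ _ (out_phProg W j (4 * a + 8) r z le_rfl)
    show U.run W (e ++ r) [] z ((q.comp (phTime j (4 * a + 8))).eval z.length) = _
    rw [Polynomial.eval_comp, h1]
    unfold chi
    congr 2
    rw [decide_eq_decide]
    exact h z
  · rw [List.length_append]

section
variable {U : Interpreter} {h : ℕ → ℕ} {Y : Par}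

theorem mem_view_iff {D : Dat} {L : ℕ} {Z : Par} {q : Str} (hq : q.length < L) :
    q ∈ View D L Z ↔ q ∈ Wor D Z := by
  rw [mem_View]
  exact ⟨fun h => h.2, fun h => ⟨hq, h⟩⟩

theorem length_ph_gt (j : ℕ) (r z : Str) (a : ℕ) :
    pd a z.length < (ph j r z (pd a z.length)).length := by
  rw [length_ph]
  omega

/-- Short strings do not see the level `mu (pd a n)`. -/
theorem wrl_pub {D : Dat} {s a n : ℕ} {q : Str} (hq : q.length ≤ Nat.log 2 n) (Y : Par) :
    q ∈ wrl D s Y a n ↔ q ∈ Wor D Y := by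
  unfold wrl
  set m := mu D.d (pd a n) with hm
  have h1 : pd a n < 2 ^ (D.d m + 1) := mu_spec D _
  have h2 := lt_pd a n
  have h3 : Nat.log 2 n < D.d m + 1 + 1 := by
    by_contra hcon
    have h4 : 2 ^ Nat.log 2 n ≤ n := by
      rcases Nat.eq_zero_or_pos n with h0 | h0
      · subst h0
        simp at hcon
      · exact Nat.pow_log_le_self 2 (by omega)
    have h5 := Nat.pow_le_pow_right (n := 2) (by norm_num) (not_lt.1 hcon)
    rw [pow_succ] at h5
    omega
  refine pub D (m := m) (cut_cut Y (by omega)) ?_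
  have := D.d_ge m
  omega

theorem FF_wrl {D : Dat} {s a : ℕ} {M : Cmd} {k n : ℕ} (Y : Par) :
    FF U a M (wrl D s Y a n) k n = FF U a M (Wor D Y) k n :=
  FF_congr fun _ hq => wrl_pub hq Y

/-- The oracle `wrl D 2 Y a n` is correct for all questions about strings of length `n`. -/
theorem HH_wrl {D : Dat} {a : ℕ} {M : Cmd} {k n : ℕ} (Y : Par) (hk : k ≤ n) :
    HH U a M (wrl D 2 Y a n) k n = HH U a M (Wor D Y) k n := by
  refine HH_congr fun q hq => ?_
  have h1 := le_pd a n q.length (by omega)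
  exact (loc D (lt_of_le_of_lt h1 (mu_spec D _))).symm

/-- Runs in the oracle seen by a question. -/
theorem run_view {D : Dat} {Z : Par} {a j : ℕ} {r z p : Str} (hp : p.length ≤ z.length) :
    U.run (View D (ph j r z (pd a z.length)).length Z) p [] z (tt a z.length) =
      U.run (Wor D Z) p [] z (tt a z.length) := by
  refine run_agree U fun q hq => ?_
  have h1 := le_pd a z.length q.length (by omega)
  have h2 := length_ph_gt j r z a
  rw [mem_view_iff (by omega)]

theorem run_two {D : Dat} {a : ℕ} {z p : Str} (hp : p.length ≤ z.length) :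
    U.run (wrl D 2 Y a z.length) p [] z (tt a z.length) =
      U.run (Wor D Y) p [] z (tt a z.length) := by
  refine run_agree U fun q hq => ?_
  have h1 := le_pd a z.length q.length (by omega)
  exact (loc D (lt_of_le_of_lt h1 (mu_spec D _))).symm

/-- If there is no key of kind `s` then the runs of the programs of `F` have the same results in
the worlds `s` and `s'`. -/
theorem run_not_key {a ty : ℕ} {M : Cmd} {F T T' : Finset Str} {r z : Str} {s s' : ℕ}
    (hF : F.card ≤ z.length) (hlen : ∀ p ∈ F, p.length ≤ z.length) (hs : s < s') (hs' : s' ≤ 2)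
    (hk : ¬ Key (dat U h) (View (dat U h) (ph (Encodable.encode (⟨ty, a, M, F, T, T'⟩ : Idx)) r z
      (pd a z.length)).length) Y s (Encodable.encode (⟨ty, a, M, F, T, T'⟩ : Idx)) z
      (pd a z.length)) {p : Str} (hp : p ∈ F) :
    U.run (wrl (dat U h) s Y a z.length) p [] z (tt a z.length) =
      U.run (wrl (dat U h) s' Y a z.length) p [] z (tt a z.length) := by
  set j := Encodable.encode (⟨ty, a, M, F, T, T'⟩ : Idx) with hj
  set L := (ph j r z (pd a z.length)).length with hL
  set m := mu (dat U h).d (pd a z.length) with hm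
  have hE : ∀ B, (dat U h).E j z B = F.biUnion fun p => Qs U B p z (tt a z.length) := by
    intro B
    show Ef U (Encodable.decode j) z B = _
    rw [hj, Encodable.encodek]
    rfl
  have hcard : ((dat U h).E j z (View (dat U h) L (cut (2 * m + s) Y))).card ≤
      pd a z.length := by
    rw [hE]
    refine Finset.card_biUnion_le.trans ?_
    calc ∑ p ∈ F, (Qs U (View (dat U h) L (cut (2 * m + s) Y)) p z (tt a z.length)).card
        ≤ ∑ p ∈ F, tt a z.length := Finset.sum_le_sum fun p _ => card_Qs U _ _ _ _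
      _ = F.card * tt a z.length := by rw [Finset.sum_const, smul_eq_mul]
      _ ≤ pd a z.length := mul_le_pd a _ _ hF
  have h1 : U.run (View (dat U h) L (cut (2 * m + s) Y)) p [] z (tt a z.length) =
      U.run (View (dat U h) L (cut (2 * m + s') Y)) p [] z (tt a z.length) := by
    refine run_Qs U fun q hq => ?_
    by_contra hne
    refine hk ⟨hcard, q, ?_, ?_, s', hs', hs, hne⟩
    · rw [hE, Finset.mem_biUnion]
      exact ⟨p, hp, hq⟩
    · have h1 := length_Qs U hq
      have h2 := hlen p hp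
      exact four_le_pd a z.length q.length (by omega)
  rw [hL, run_view (hlen p hp), run_view (hlen p hp)] at h1
  exact h1

theorem Gf_acc {d : ℕ → ℕ} {s a : ℕ} (hs : s ≤ 2) {M : Cmd} {F T T' : Finset Str} {r z : Str}
    {V : Par → Set Str} {Z : Par} : Gf U d (some ⟨s, a, M, F, T, T'⟩) r z V Z ↔
      Acc U a M (fun n => V (cut (2 * mu d (pd a n) + s) Z)) r.length (val r) z := by
  simp [Gf, hs]

theorem Gf_dec {d : ℕ → ℕ} {a : ℕ} {M : Cmd} {F T T' : Finset Str} {r z : Str}
    {V : Par → Set Str} {Z : Par} : Gf U d (some ⟨3, a, M, F, T, T'⟩) r z V Z ↔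
      (z ∈ T ∧ z ∈ T') ∨
      (z ∉ T ∧ ∃ p ∈ F, U.run (V Z) p [] z (tt a z.length) = some [true]) := by
  simp [Gf]

/-- Number of hidden strings opened by a question. -/
noncomputable def lvl (U : Interpreter) (h : ℕ → ℕ) (Y : Par) (j : ℕ) (r z : Str) (P : ℕ) : ℕ :=
  opn (dat U h) (View (dat U h) (ph j r z P).length) Y j z P

/-- Meaning of the questions of type `s`. -/
theorem ans_acc {s : ℕ} (hs : s ≤ 2) (a : ℕ) (M : Cmd) (F : Finset Str) (r z : Str)
    (hr : r.length ≤ z.length) :
    ph (Encodable.encode (⟨s, a, M, F, ∅, ∅⟩ : Idx)) r z (pd a z.length) ∈ Wor (dat U h) Y ↔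
      Acc U a M (fun n => Wor (dat U h) (cut (2 * mu (dat U h).d (pd a n) + s)
        (cut (2 * mu (dat U h).d (pd a z.length) +
          lvl U h Y (Encodable.encode (⟨s, a, M, F, ∅, ∅⟩ : Idx)) r z (pd a z.length)) Y)))
        r.length (val r) z := by
  rw [mem_ph]
  unfold Ans lvl
  set j := Encodable.encode (⟨s, a, M, F, ∅, ∅⟩ : Idx) with hj
  have hL := length_ph_gt j r z a
  set L := (ph j r z (pd a z.length)).length with hLdef
  set m := mu (dat U h).d (pd a z.length) with hm
  set o := opn (dat U h) (View (dat U h) L) Y j z (pd a z.length) with ho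
  have hG : (dat U h).G j r z (View (dat U h) L) (cut (2 * m + o) Y) ↔
      Acc U a M (fun n => View (dat U h) L (cut (2 * mu (dat U h).d (pd a n) + s)
        (cut (2 * m + o) Y))) r.length (val r) z := by
    show Gf U (lev h) (Encodable.decode j) r z (View (dat U h) L) (cut (2 * m + o) Y) ↔ _
    rw [hj, Encodable.encodek, Gf_acc hs]
    exact Iff.rfl
  rw [hG]
  have hag : ∀ n ≤ z.length, ∀ q : Str, q.length ≤ r.length + n + tt a n →
      (q ∈ View (dat U h) L (cut (2 * mu (dat U h).d (pd a n) + s) (cut (2 * m + o) Y)) ↔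
        q ∈ Wor (dat U h) (cut (2 * mu (dat U h).d (pd a n) + s) (cut (2 * m + o) Y))) := by
    intro n hn q hq
    have h2 := tt_mono a hn
    have h3 := le_pd a z.length q.length (by omega)
    rw [mem_view_iff (by omega)]
  exact ⟨Acc.congr hag, Acc.congr fun n hn q hq => (hag n hn q hq).symm⟩

/-- Questions of type `s` which open at least `s` hidden strings are answered correctly. -/
theorem ans_open {s : ℕ} (hs : s ≤ 2) (a : ℕ) (M : Cmd) (F : Finset Str) (r z : Str)
    (hr : r.length ≤ z.length)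
    (ho : s ≤ lvl U h Y (Encodable.encode (⟨s, a, M, F, ∅, ∅⟩ : Idx)) r z (pd a z.length)) :
    ph (Encodable.encode (⟨s, a, M, F, ∅, ∅⟩ : Idx)) r z (pd a z.length) ∈ Wor (dat U h) Y ↔
      Acc U a M (wrl (dat U h) s Y a) r.length (val r) z := by
  rw [ans_acc hs a M F r z hr]
  have hag : ∀ n ≤ z.length, Wor (dat U h) (cut (2 * mu (dat U h).d (pd a n) + s)
        (cut (2 * mu (dat U h).d (pd a z.length) +
          lvl U h Y (Encodable.encode (⟨s, a, M, F, ∅, ∅⟩ : Idx)) r z (pd a z.length)) Y)) =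
      wrl (dat U h) s Y a n := by
    intro n hn
    have h1 : mu (dat U h).d (pd a n) ≤ mu (dat U h).d (pd a z.length) :=
      mu_mono _ (pd_mono a hn)
    rw [cut_cut Y (by omega)]
    rfl
  exact ⟨Acc.congr fun n hn q _ => by rw [← hag n hn], Acc.congr fun n hn q _ => by
    rw [← hag n hn]⟩

/-- Questions of type `s` which open fewer hidden strings. -/
theorem ans_closed {s : ℕ} (hs : s ≤ 2) (a : ℕ) (M : Cmd) (F : Finset Str) (r z : Str)
    (hr : r.length ≤ z.length)
    (ho : lvl U h Y (Encodable.encode (⟨s, a, M, F, ∅, ∅⟩ : Idx)) r z (pd a z.length) < s)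
    (hin : ph (Encodable.encode (⟨s, a, M, F, ∅, ∅⟩ : Idx)) r z (pd a z.length) ∈
      Wor (dat U h) Y) :
    2 ^ r.length ≤ z.length ∧
    (FF U a M (wrl (dat U h) (lvl U h Y (Encodable.encode (⟨s, a, M, F, ∅, ∅⟩ : Idx)) r z
      (pd a z.length)) Y a z.length) r.length z.length).card = val r ∧
    z ∈ HH U a M (wrl (dat U h) (lvl U h Y (Encodable.encode (⟨s, a, M, F, ∅, ∅⟩ : Idx)) r z
      (pd a z.length)) Y a z.length) r.length z.length := by
  rw [ans_acc hs a M F r z hr] at hin
  obtain ⟨h1, h2, h3, -⟩ := hin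
  have h4 : Wor (dat U h) (cut (2 * mu (dat U h).d (pd a z.length) + s)
        (cut (2 * mu (dat U h).d (pd a z.length) +
          lvl U h Y (Encodable.encode (⟨s, a, M, F, ∅, ∅⟩ : Idx)) r z (pd a z.length)) Y)) =
      wrl (dat U h) (lvl U h Y (Encodable.encode (⟨s, a, M, F, ∅, ∅⟩ : Idx)) r z
        (pd a z.length)) Y a z.length := by
    rw [cut_cut' Y (by omega)]
    rfl
  simp only [h4] at h2 h3
  exact ⟨h1, h2, h3⟩

/-- Decision questions. -/
theorem ans_dec (a : ℕ) (F T T' : Finset Str) (r z : Str)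
    (hF : z ∉ T → F.card ≤ z.length) (hlen : z ∉ T → ∀ p ∈ F, p.length ≤ z.length) :
    ph (Encodable.encode (⟨3, a, Cmd.skip, F, T, T'⟩ : Idx)) r z (pd a z.length) ∈
      Wor (dat U h) Y ↔
      (z ∈ T ∧ z ∈ T') ∨
      (z ∉ T ∧ ∃ p ∈ F, U.run (Wor (dat U h) Y) p [] z (tt a z.length) = some [true]) := by
  rw [mem_ph]
  unfold Ans
  set j := Encodable.encode (⟨3, a, Cmd.skip, F, T, T'⟩ : Idx) with hj
  set L := (ph j r z (pd a z.length)).length with hLdef
  set m := mu (dat U h).d (pd a z.length) with hm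
  set o := opn (dat U h) (View (dat U h) L) Y j z (pd a z.length) with ho
  have hG : (dat U h).G j r z (View (dat U h) L) (cut (2 * m + o) Y) ↔ (z ∈ T ∧ z ∈ T') ∨
      (z ∉ T ∧ ∃ p ∈ F, U.run (View (dat U h) L (cut (2 * m + o) Y)) p [] z
        (tt a z.length) = some [true]) := by
    show Gf U (lev h) (Encodable.decode j) r z (View (dat U h) L) (cut (2 * m + o) Y) ↔ _
    rw [hj, Encodable.encodek, Gf_dec]
  rw [hG]
  refine or_congr Iff.rfl (and_congr_right fun hz => ?_)
  refine exists_congr fun p => and_congr_right fun hp => ?_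
  have ho2 : o ≤ 2 := opn_le _ _ _ _ _ _
  have h1 : U.run (wrl (dat U h) o Y a z.length) p [] z (tt a z.length) =
      U.run (wrl (dat U h) 2 Y a z.length) p [] z (tt a z.length) := by
    rcases Nat.lt_or_ge o 2 with h2 | h2
    · exact run_not_key (r := r) (hF hz) (hlen hz) h2 le_rfl (not_key_opn _ h2) hp
    · rw [show o = 2 by omega]
  have h3 : U.run (Wor (dat U h) (cut (2 * m + o) Y)) p [] z (tt a z.length) =
      U.run (Wor (dat U h) Y) p [] z (tt a z.length) := h1.trans (run_two (hlen hz p hp))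
  rw [hLdef, run_view (hlen hz p hp), h3]

end

end Pool.ICS
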