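import Pool.Agent.Work.MP_af7a01_sep.Types
import Pool.Agent.Work.MP_af7a01_sep.Cpx

/-!
# The C-version fails relative to the oracle
-/

open Classical

namespace Pool.ICS

open Pool.IC

section
variable {U : Interpreter} {D : Dat} {N : ℕ → Cmd} {Y : Par}

/-- The set without p-hard instances. -/
def tgtS (Y : Par) : Set Str := {z | ∃ i w, Y (2 * i) = some z ∧ Y (2 * i + 1) = some (true :: w)}

theorem Fine.length0 (hY : Fine U D N Y) {i : ℕ} {z : Str} (hz : Y (2 * i) = some z) :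
    z.length = 16 * D.d i := by
  obtain ⟨y, h1, h2⟩ := hY.len0 i
  rw [hz] at h1
  obtain rfl := Option.some.inj h1
  exact h2

theorem Fine.length1 (hY : Fine U D N Y) {i : ℕ} {b : Bool} {w : Str}
    (hw : Y (2 * i + 1) = some (b :: w)) : w.length + 1 = 16 * D.d i := by
  obtain ⟨b', w', h1, h2⟩ := hY.len1 i
  rw [hw] at h1
  have h3 := Option.some.inj h1
  simp only [List.cons.injEq] at h3
  rw [h3.2]
  exact h2

theorem Fine.inj (hY : Fine U D N Y) {i j : ℕ} {z : Str} (hi : Y (2 * i) = some z)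
    (hj : Y (2 * j) = some z) : i = j := by
  have h1 := hY.length0 hi
  have h2 := hY.length0 hj
  exact D.strictMono.injective (by omega)

/-- The secret bit. -/
theorem Fine.bit (hY : Fine U D N Y) {i : ℕ} {z : Str} (hz : Y (2 * i) = some z) :
    ∃ w, Y (2 * i + 1) = some (decide (z ∈ tgtS Y) :: w) := by
  obtain ⟨b, w, h1, -⟩ := hY.len1 i
  refine ⟨w, ?_⟩
  have h2 : decide (z ∈ tgtS Y) = b := by
    cases b with
    | true =>
      rw [decide_eq_true_iff]
      exact ⟨i, w, hz, h1⟩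
    | false =>
      rw [decide_eq_false_iff_not]
      rintro ⟨j, w', h3, h4⟩
      obtain rfl := hY.inj hz h3
      rw [h1] at h4
      have h5 := Option.some.inj h4
      simp at h5
  rw [h2]
  exact h1

theorem Fine.bit_unique (hY : Fine U D N Y) {i j : ℕ} {z w : Str} {b : Bool}
    (hz : Y (2 * i) = some z) (hz' : Y (2 * j) = some z) (hw : Y (2 * j + 1) = some (b :: w)) :
    b = decide (z ∈ tgtS Y) := by
  obtain rfl := hY.inj hz hz'
  obtain ⟨w', h1⟩ := hY.bit hz
  rw [h1] at hw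
  have h2 := Option.some.inj hw
  simp only [List.cons.injEq] at h2
  exact h2.1.symm

theorem mk_iffS (hY : Fine U D N Y) {z : Str} : mk z ∈ Wor D Y ↔ ∃ i, Y (2 * i) = some z := by
  rw [mem_mk]
  constructor
  · rintro ⟨i, -, h1⟩
    exact ⟨i, h1⟩
  · rintro ⟨i, h1⟩
    exact ⟨i, hY.length0 h1, h1⟩

theorem ix_iffS (hY : Fine U D N Y) {i : ℕ} {z : Str} :
    ix (i + 1) z ∈ Wor D Y ↔ Y (2 * i) = some z := by
  rw [mem_ix]
  exact ⟨fun h1 => h1.2, fun h1 => ⟨hY.length0 h1, h1⟩⟩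

theorem wt_iffS (hY : Fine U D N Y) {b : Bool} {w z : Str} :
    wt b w z ∈ Wor D Y ↔ ∃ i, Y (2 * i) = some z ∧ Y (2 * i + 1) = some (b :: w) := by
  rw [mem_wt]
  refine exists_congr fun i => ⟨fun h1 => h1.2.2, fun h1 => ⟨hY.length0 h1.1,
    hY.length1 h1.2, h1⟩⟩

theorem fr_iffS (hY : Fine U D N Y) {b : Bool} {m : ℕ} {z : Str} :
    fr b m z ∈ Wor D Y ↔ ∃ i w, m = 2 ^ (D.d i + 1) ∧ Y (2 * i) = some z ∧
      Y (2 * i + 1) = some (b :: w) := by
  rw [mem_fr]
  refine exists_congr fun i => exists_congr fun w => ⟨fun h1 => ⟨h1.1, h1.2.2.2⟩,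
    fun h1 => ⟨h1.1, hY.length0 h1.2.1, hY.length1 h1.2.2, h1.2⟩⟩

theorem tgtS_sub (hY : Fine U D N Y) {z : Str} (hz : z ∈ tgtS Y) : mk z ∈ Wor D Y := by
  obtain ⟨i, w, h1, -⟩ := hz
  exact (mk_iffS hY).2 ⟨i, h1⟩

theorem chi_tgtS_not (hY : Fine U D N Y) {z : Str} (hz : mk z ∉ Wor D Y) :
    chi (tgtS Y) z = [false] := by
  have : z ∉ tgtS Y := fun h => hz (tgtS_sub hY h)
  simp [chi, this]

theorem decidableInS (hY : Fine U D N Y) : DecidableIn (Wor D Y) (tgtS Y) := by
  refine ⟨decProg, fun z => ?_⟩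
  by_cases hz : mk z ∈ Wor D Y
  · obtain ⟨i, hi⟩ := (mk_iffS hY).1 hz
    obtain ⟨w, hw⟩ := hY.bit hi
    show ∃ n, out (Wor D Y) decProg [] [] z n = some [decide (z ∈ tgtS Y)]
    refine decProg_yes (Wor D Y) z hz (decide (z ∈ tgtS Y)) (2 ^ (D.d i + 1)) ?_ ?_ ?_
    · exact (fr_iffS hY).2 ⟨i, w, rfl, hi, hw⟩
    · intro h1
      obtain ⟨j, w', -, h2, h3⟩ := (fr_iffS hY).1 h1
      have h4 := hY.bit_unique hi h2 h3
      by_cases h5 : z ∈ tgtS Y <;> simp [h5] at h4
    · intro m hm x h1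
      obtain ⟨j, w', hj, hj2, -⟩ := (fr_iffS hY).1 h1
      rw [hY.inj hj2 hi] at hj
      omega
  · rw [chi_tgtS_not hY hz]
    exact decProg_no (Wor D Y) z hz

theorem notInTimeS (hY : Fine U D N Y) (hN : ∀ M : Cmd, ∀ k0 : ℕ, ∃ k ≥ k0, N k = M)
    {t : ℕ → ℕ} (ht : Small t) : ¬ InTime (Wor D Y) t (tgtS Y) := by
  rintro ⟨M, hM⟩
  obtain ⟨m0, hm0⟩ := ht.eventually
  obtain ⟨i, hi, hNi⟩ := hN M m0
  obtain ⟨z, hz, hlen⟩ := hY.len0 i
  obtain ⟨w, hw⟩ := hY.bit hz
  have h1 := hM z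
  rw [hlen] at h1
  have h2 := D.d_ge i
  refine hY.diag i z _ w hz hw ?_
  rw [hNi]
  exact out_mono h1 (hm0 _ (by omega))

theorem inUPS (hY : Fine U D N Y) : InUP (Wor D Y) (tgtS Y) := by
  refine ⟨verProg true, Polynomial.C 12 * Polynomial.X + Polynomial.C 30, Polynomial.X,
    {yz | wt true yz.1 yz.2 ∈ Wor D Y}, ?_, ?_, ?_, ?_⟩
  · intro y z
    refine out_verProg (Wor D Y) true y z ?_
    simp only [Polynomial.eval_add, Polynomial.eval_mul, Polynomial.eval_C, Polynomial.eval_X]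
    exact le_rfl
  · intro y z hy
    obtain ⟨i, h1, h2⟩ := (wt_iffS hY).1 hy
    have h3 : z.length = 16 * D.d i := hY.length0 h1
    have h4 : y.length + 1 = 16 * D.d i := hY.length1 h2
    rw [Polynomial.eval_X]
    omega
  · intro y y' z hy hy'
    obtain ⟨i, h1, h2⟩ := (wt_iffS hY).1 hy
    obtain ⟨i', h1', h2'⟩ := (wt_iffS hY).1 hy'
    obtain rfl := hY.inj h1 h1'
    rw [h2] at h2'
    have h3 := Option.some.inj h2'
    simp only [List.cons.injEq, true_and] at h3
    exact h3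
  · intro z
    constructor
    · rintro ⟨i, w, h1, h2⟩
      exact ⟨w, (wt_iffS hY).2 ⟨i, h1, h2⟩⟩
    · rintro ⟨w, hw⟩
      obtain ⟨i, h1, h2⟩ := (wt_iffS hY).1 hw
      exact ⟨i, w, h1, h2⟩

theorem inCoUPS (hY : Fine U D N Y) : InUP (Wor D Y) (tgtS Y)ᶜ := by
  refine ⟨coverProg, Polynomial.C 12 * Polynomial.X + Polynomial.C 31, Polynomial.X,
    {yz | (yz.1 = [] ∧ mk yz.2 ∉ Wor D Y) ∨ (yz.1 ≠ [] ∧ wt false yz.1 yz.2 ∈ Wor D Y)},
    ?_, ?_, ?_, ?_⟩
  · intro y z
    refine (out_coverProg (Wor D Y) y z ?_).trans ?_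
    · simp only [Polynomial.eval_add, Polynomial.eval_mul, Polynomial.eval_C, Polynomial.eval_X]
      exact le_rfl
    · congr 2
      exact decide_eq_decide.2 Iff.rfl
  · rintro y z (⟨hy, -⟩ | ⟨-, hy⟩)
    · have hy' : y = [] := hy
      rw [hy']
      simp
    · obtain ⟨i, h1, h2⟩ := (wt_iffS hY).1 hy
      have h3 : z.length = 16 * D.d i := hY.length0 h1
      have h4 : y.length + 1 = 16 * D.d i := hY.length1 h2
      rw [Polynomial.eval_X]
      omega
  · rintro y y' z (⟨hy, hz⟩ | ⟨hy0, hy⟩) (⟨hy', hz'⟩ | ⟨hy0', hy'⟩)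
    · exact (show y = [] from hy).trans (show y' = [] from hy').symm
    · obtain ⟨i, h1, -⟩ := (wt_iffS hY).1 hy'
      exact absurd ((mk_iffS hY).2 ⟨i, h1⟩) hz
    · obtain ⟨i, h1, -⟩ := (wt_iffS hY).1 hy
      exact absurd ((mk_iffS hY).2 ⟨i, h1⟩) hz'
    · obtain ⟨i, h1, h2⟩ := (wt_iffS hY).1 hy
      obtain ⟨i', h1', h2'⟩ := (wt_iffS hY).1 hy'
      obtain rfl := hY.inj h1 h1'
      rw [h2] at h2'
      have h3 := Option.some.inj h2'
      simp only [List.cons.injEq, true_and] at h3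
      exact h3
  · intro z
    rw [Set.mem_compl_iff]
    constructor
    · intro hz
      by_cases hm : mk z ∈ Wor D Y
      · obtain ⟨i, hi⟩ := (mk_iffS hY).1 hm
        obtain ⟨w, hw⟩ := hY.bit hi
        rw [decide_eq_false hz] at hw
        have h1 := hY.length1 hw
        have h2 := D.d_ge i
        refine ⟨w, Or.inr ⟨?_, (wt_iffS hY).2 ⟨i, hi, hw⟩⟩⟩
        intro h3
        have h4 : w = [] := h3
        rw [h4, List.length_nil] at h1
        omega
      · exact ⟨[], Or.inl ⟨rfl, hm⟩⟩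
    · rintro ⟨y, (⟨-, hm⟩ | ⟨-, hy⟩)⟩ hz
      · exact hm (tgtS_sub hY hz)
      · obtain ⟨i, h1, h2⟩ := (wt_iffS hY).1 hy
        have h3 := hY.bit_unique h1 h1 h2
        have h4 : decide (z ∈ tgtS Y) = true := decide_eq_true hz
        rw [h4] at h3
        exact absurd h3 (by simp)

theorem ic_le_notS {pre : Str} {q : Polynomial ℕ} (hS : Sim U pre q) (hY : Fine U D N Y) {x : Str}
    (hx : mk x ∉ Wor D Y) :
    ic U (Wor D Y) (fun n => (icTime q).eval n) x (tgtS Y) ≤ (pre.length : ℕ∞) := by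
  unfold ic
  refine iInf₂_le_of_le pre ?_ le_rfl
  have hrun : ∀ z, U.run (Wor D Y) pre [] z ((icTime q).eval z.length) =
      some (icOut (Wor D Y) [] z) := by
    intro z
    have := run_ic hS (Wor D Y) [] z
    rwa [List.append_nil] at this
  refine ⟨fun z => ?_, ?_⟩
  · rw [hrun z]
    by_cases hz : mk z ∈ Wor D Y
    · right
      simp [icOut, hz]
    · left
      rw [chi_tgtS_not hY hz]
      simp [icOut, hz]
  · show U.run (Wor D Y) pre [] x ((icTime q).eval x.length) = _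
    rw [hrun x, chi_tgtS_not hY hx]
    simp [icOut, hx]

theorem ic_leS {pre : Str} {q : Polynomial ℕ} (hS : Sim U pre q) (hY : Fine U D N Y) {k : ℕ}
    {x : Str} (hx : Y (2 * k) = some x) :
    ic U (Wor D Y) (fun n => (icTime q).eval n) x (tgtS Y) ≤
      ((pre.length + k + 2 : ℕ) : ℕ∞) := by
  unfold ic
  refine iInf₂_le_of_le (pre ++ (decide (x ∈ tgtS Y) :: List.replicate (k + 1) true)) ?_ ?_
  · have hrun : ∀ z, U.run (Wor D Y)
        (pre ++ (decide (x ∈ tgtS Y) :: List.replicate (k + 1) true)) [] z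
        ((icTime q).eval z.length) =
        some (icOut (Wor D Y) (decide (x ∈ tgtS Y) :: List.replicate (k + 1) true) z) :=
      fun z => run_ic hS (Wor D Y) _ z
    refine ⟨fun z => ?_, ?_⟩
    · rw [hrun z]
      by_cases hz : mk z ∈ Wor D Y
      · simp only [icOut, hz, if_true, List.length_replicate]
        by_cases h2 : k + 1 ≤ z.length ∧ ix (k + 1) z ∈ Wor D Y
        · left
          have h3 : z = x := by
            have h4 := (ix_iffS hY).1 h2.2
            rw [hx] at h4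
            exact (Option.some.inj h4).symm
          rw [if_pos h2, h3]
          rfl
        · right
          rw [if_neg h2]
      · left
        rw [chi_tgtS_not hY hz]
        simp [icOut, hz]
    · show U.run (Wor D Y) (pre ++ (decide (x ∈ tgtS Y) :: List.replicate (k + 1) true)) [] x
        ((icTime q).eval x.length) = _
      rw [hrun x]
      have h1 : mk x ∈ Wor D Y := (mk_iffS hY).2 ⟨k, hx⟩
      have h2 : k + 1 ≤ x.length ∧ ix (k + 1) x ∈ Wor D Y := by
        refine ⟨?_, (ix_iffS hY).2 hx⟩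
        rw [hY.length0 hx]
        have := D.d_ge k
        omega
      simp only [icOut, h1, if_true, List.length_replicate]
      rw [if_pos h2]
      rfl
  · have : (pre ++ (decide (x ∈ tgtS Y) :: List.replicate (k + 1) true)).length =
        pre.length + k + 2 := by
      simp; ring
    rw [this]

theorem le_CK (hY : Fine U D N Y) {k : ℕ} {x : Str} (hx : Y (2 * k) = some x) {t : ℕ → ℕ}
    (ht : t (16 * D.d k) ≤ 2 ^ D.d k) : ((8 * D.d k : ℕ) : ℕ∞) ≤ CK U (Wor D Y) t x := by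
  unfold CK
  refine le_iInf₂ fun p hp => ?_
  by_contra hcon
  rw [not_le, Nat.cast_lt] at hcon
  have h1 : U.run (Wor D Y) p [] [] (t x.length) = some x := hp
  rw [hY.length0 hx] at h1
  exact hY.hard k x hx p hcon (U.mono _ _ _ _ _ _ _ ht h1)

theorem finite_CK (U : Interpreter) (B : Set Str) (t : ℕ → ℕ) (K : ℕ) :
    {x : Str | ¬ ((K : ℕ∞) < CK U B t x)}.Finite := by
  have hsub : {x : Str | ¬ ((K : ℕ∞) < CK U B t x)} ⊆
      ⋃ p ∈ (short (K + 1) : Finset Str), {x : Str | U.run B p [] [] (t x.length) = some x} := by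
    intro x hx
    by_contra hcon
    simp only [Set.mem_iUnion, not_exists] at hcon
    apply hx
    have h1 : ((K + 1 : ℕ) : ℕ∞) ≤ CK U B t x := by
      unfold CK
      refine le_iInf₂ fun p hp => ?_
      by_contra h2
      rw [not_le, Nat.cast_lt] at h2
      exact hcon p (mem_short.2 h2) hp
    refine lt_of_lt_of_le ?_ h1
    exact_mod_cast Nat.lt_succ_self K
  refine Set.Finite.subset (Set.Finite.biUnion (Finset.finite_toSet _) fun p _ => ?_) hsub
  refine Set.Subsingleton.finite ?_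
  intro x hx x' hx'
  have h1 : U.run B p [] [] (t x.length) = some x := hx
  have h2 : U.run B p [] [] (t x'.length) = some x' := hx'
  have h3 := U.mono _ _ _ _ _ _ _ (le_max_left (t x.length) (t x'.length)) h1
  have h4 := U.mono _ _ _ _ _ _ _ (le_max_right (t x.length) (t x'.length)) h2
  rw [h3] at h4
  exact Option.some.inj h4

end

/-- Separation of the two versions. -/
theorem main (U : Interpreter) (h : ℕ → ℕ) : ∃ W : Set Str,
    (∀ A : Set Str, DecidableIn W A → ¬ InP W A → ∀ t : Polynomial ℕ,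
      ∃ (t' : Polynomial ℕ) (c : ℕ), {x | CD U W (fun n => t'.eval n) x ≤
        ic U W (fun n => t.eval n) x A + c}.Infinite) ∧
    ∃ A : Set Str, DecidableIn W A ∧ ¬ InP W A ∧ (∀ t : ℕ → ℕ, Small t → ¬ InTime W t A) ∧
      InUP W A ∧ InUP W Aᶜ ∧ ∃ (t : Polynomial ℕ) (c₀ : ℕ), ∀ t' : ℕ → ℕ, Small t' →
        (∀ c : ℕ, ∀ᶠ x in Filter.cofinite, ∃ i : ℕ,
          ic U W (fun n => t.eval n) x A = i ∧ ((h i + c : ℕ) : ℕ∞) < CK U W t' x) ∧
        ∀ᶠ x in Filter.cofinite,
          ic U W (fun n => t.eval n) x A ≤ c₀ ∨ (x.length : ℕ∞) ≤ 2 * CK U W t' x := by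
  obtain ⟨pre, q, hS⟩ := U.sim icProg
  replace hS : Sim U pre q := hS
  obtain ⟨N, hN⟩ := exists_enum
  obtain ⟨Y, hY⟩ := exists_fine U (dat U h) N
  set D := dat U h with hD
  refine ⟨Wor D Y, fun A hA hP t => partA hY hA hP t, tgtS Y, decidableInS hY, ?_,
    fun t ht => notInTimeS hY hN ht, inUPS hY, inCoUPS hY, icTime q, pre.length, ?_⟩
  · rintro ⟨r, hr⟩
    exact notInTimeS hY hN (poly_small r) hr
  intro t' ht'
  obtain ⟨m0, hm0⟩ := ht'.eventually
  have hfin : ∀ k0 : ℕ, {x : Str | ∃ k < k0, Y (2 * k) = some x}.Finite := by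
    intro k0
    refine Set.Finite.subset (Set.Finite.image (fun k => (Y (2 * k)).getD [])
      (Set.finite_Iio k0)) ?_
    rintro x ⟨k, hk, hx⟩
    exact ⟨k, hk, by simp [hx]⟩
  constructor
  · intro c
    rw [Filter.eventually_cofinite]
    set K := ∑ j ∈ Finset.range (pre.length + 1), h j + c with hK
    refine ((hfin (max m0 (max c pre.length))).union
      (finite_CK U (Wor D Y) t' K)).subset ?_
    intro x hx
    by_contra hcon
    simp only [Set.mem_union, not_or] at hcon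
    obtain ⟨hcon1, hcon2⟩ := hcon
    apply hx
    by_cases hm : mk x ∈ Wor D Y
    · obtain ⟨k, hk⟩ := (mk_iffS hY).1 hm
      have hk0 : max m0 (max c pre.length) ≤ k := by
        by_contra h1
        exact hcon1 ⟨k, not_le.1 h1, hk⟩
      have hk1 : m0 ≤ k := (le_max_left _ _).trans hk0
      have hk2 : c ≤ k := (le_max_left _ _).trans ((le_max_right _ _).trans hk0)
      have hk3 : pre.length ≤ k := (le_max_right _ _).trans ((le_max_right _ _).trans hk0)
      obtain ⟨i, hi, hi2⟩ := ENat.le_natCast_iff.1 (ic_leS hS hY hk)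
      refine ⟨i, hi, ?_⟩
      have h1 : h i ≤ D.d k := by
        refine le_trans ?_ (lev_ge h k)
        exact Finset.single_le_sum (f := h) (fun _ _ => Nat.zero_le _)
          (Finset.mem_range.2 (by omega))
      have h3 := D.d_ge k
      have h2 := le_CK hY hk (t := t') (hm0 _ (by omega))
      refine lt_of_lt_of_le ?_ h2
      rw [Nat.cast_lt]
      omega
    · obtain ⟨i, hi, hi2⟩ := ENat.le_natCast_iff.1 (ic_le_notS hS hY hm)
      refine ⟨i, hi, ?_⟩
      have h1 : (K : ℕ∞) < CK U (Wor D Y) t' x := by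
        by_contra h2
        exact hcon2 h2
      refine lt_of_le_of_lt ?_ h1
      rw [Nat.cast_le, hK]
      have : h i ≤ ∑ j ∈ Finset.range (pre.length + 1), h j :=
        Finset.single_le_sum (f := h) (fun _ _ => Nat.zero_le _) (Finset.mem_range.2 (by omega))
      omega
  · rw [Filter.eventually_cofinite]
    refine (hfin m0).subset ?_
    intro x hx
    by_contra hcon
    apply hx
    by_cases hm : mk x ∈ Wor D Y
    · right
      obtain ⟨k, hk⟩ := (mk_iffS hY).1 hm
      have hk0 : m0 ≤ k := by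
        by_contra h1
        exact hcon ⟨k, not_le.1 h1, hk⟩
      have h3 := D.d_ge k
      have h2 := le_CK hY hk (t := t') (hm0 _ (by omega))
      rw [hY.length0 hk]
      calc ((16 * D.d k : ℕ) : ℕ∞) = 2 * ((8 * D.d k : ℕ) : ℕ∞) := by
            push_cast
            ring
        _ ≤ 2 * CK U (Wor D Y) t' x := by gcongr
    · left
      exact ic_le_notS hS hY hm

end Pool.ICS
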