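import Pool.Agent.Work.MP_af7a01_sep.PartA

/-!
# The CD-version holds relative to the oracle
-/

open Classical

namespace Pool.ICS

open Pool.IC

section
variable {U : Interpreter} {h : ℕ → ℕ} {N : ℕ → Cmd} {Y : Par}

variable {A : Set Str} {M : Cmd} {a : ℕ}

/-- The strings which are not decided by the consistent programs of length less than `k`. -/
def Und (U : Interpreter) (W A : Set Str) (a k : ℕ) : Set Str :=
  {x | ∀ p ∈ CC U a A W k, U.run W p [] x (tt a x.length) = some []}

theorem chi_eq_true {A : Set Str} {z : Str} : chi A z = [true] ↔ z ∈ A := by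
  unfold chi
  simp

theorem und_infinite (hP : ¬ InP (Wor (dat U h) Y) A) (k : ℕ) :
    (Und U (Wor (dat U h) Y) A a k).Infinite := by
  intro hfin
  apply hP
  set F := CC U a A (Wor (dat U h) Y) k with hF
  set T := hfin.toFinset ∪ short (2 ^ k) with hT
  refine inP_of_ph (j := Encodable.encode (⟨3, a, Cmd.skip, F, T, T.filter (· ∈ A)⟩ : Idx))
    (a := a) fun z => ?_
  have hlong : z ∉ T → 2 ^ k ≤ z.length := by
    intro hz
    by_contra hcon
    apply hz
    rw [hT, Finset.mem_union, mem_short]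
    exact Or.inr (not_le.1 hcon)
  rw [ans_dec]
  · constructor
    · rintro (⟨-, h2⟩ | ⟨-, p, hp, h2⟩)
      · exact (Finset.mem_filter.1 h2).2
      · rw [hF] at hp
        unfold CC at hp
        rcases (Finset.mem_filter.1 hp).2 z with h3 | h3
        · rw [h3] at h2
          exact chi_eq_true.1 (Option.some.inj h2)
        · rw [h3] at h2
          exact absurd (Option.some.inj h2) (by simp)
    · intro hz
      by_cases hzT : z ∈ T
      · exact Or.inl ⟨hzT, Finset.mem_filter.2 ⟨hzT, hz⟩⟩
      · right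
        refine ⟨hzT, ?_⟩
        have h1 : z ∉ Und U (Wor (dat U h) Y) A a k := by
          intro h2
          apply hzT
          rw [hT, Finset.mem_union]
          exact Or.inl (hfin.mem_toFinset.2 h2)
        unfold Und at h1
        simp only [Set.mem_ofPred_eq, not_forall] at h1
        obtain ⟨p, hp, h2⟩ := h1
        refine ⟨p, hp, ?_⟩
        unfold CC at hp
        rcases (Finset.mem_filter.1 hp).2 z with h3 | h3
        · rw [h3, chi_eq_true.2 hz]
        · exact absurd h3 h2
  · intro hz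
    have h1 := hlong hz
    have h2 := card_CC_lt (U := U) a A (Wor (dat U h) Y) k
    rw [← hF] at h2
    omega
  · intro hz p hp
    have h1 := hlong hz
    rw [hF] at hp
    unfold CC at hp
    have h2 := mem_short.1 (Finset.mem_filter.1 hp).1
    have h3 : k < 2 ^ k := Nat.lt_two_pow_self
    omega

/-- The final estimate. -/
theorem CD_le_ic {W : Set Str} {t : ℕ → ℕ} {x : Str} {c k : ℕ}
    (h1 : CD U W t x ≤ ((c + k : ℕ) : ℕ∞)) (h2 : (k : ℕ∞) ≤ ic U W (tt a) x A) :
    CD U W t x ≤ ic U W (tt a) x A + c := by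
  refine h1.trans ?_
  push_cast
  rw [add_comm]
  gcongr

/-- There are undecided strings in the worlds of type `s`, for infinitely many `k`. -/
def Rich (U : Interpreter) (h : ℕ → ℕ) (Y : Par) (A : Set Str) (M : Cmd) (a s : ℕ) : Prop :=
  ∀ K, ∃ k ≥ K, ∃ n, 2 ^ k ≤ n ∧
    (FF U a M (wrl (dat U h) s Y a n) k n).card = (CC U a A (Wor (dat U h) Y) k).card ∧
    (HH U a M (wrl (dat U h) s Y a n) k n).Nonempty

theorem rich_two (hP : ¬ InP (Wor (dat U h) Y) A)
    (hM : ∀ z : Str, ∃ n : ℕ, out (Wor (dat U h) Y) M [] [] z n = some (chi A z)) :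
    Rich U h Y A M a 2 := by
  intro k
  obtain ⟨n0, hn0⟩ := exists_FF_eq (U := U) (a := a) hM k
  obtain ⟨x, hx, hlen⟩ : ∃ x ∈ Und U (Wor (dat U h) Y) A a k, max n0 (2 ^ k) ≤ x.length := by
    by_contra hcon
    push Not at hcon
    refine und_infinite (a := a) hP k (Set.Finite.subset
      (Finset.finite_toSet (short (max n0 (2 ^ k)))) fun x hx => ?_)
    exact mem_short.2 (hcon x hx)
  have h1 : 2 ^ k ≤ x.length := (le_max_right _ _).trans hlen
  have h2 : k < 2 ^ k := Nat.lt_two_pow_self
  refine ⟨k, le_rfl, x.length, h1, ?_, x, ?_⟩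
  · rw [FF_wrl, hn0 _ ((le_max_left _ _).trans hlen)]
  · rw [HH_wrl Y (by omega)]
    unfold HH
    rw [Finset.mem_filter, mem_strs, hn0 _ ((le_max_left _ _).trans hlen)]
    exact ⟨rfl, hx⟩

theorem typeS (hY : Fine U (dat U h) N Y) {s : ℕ} (hs : s ≤ 2)
    (hM : ∀ z : Str, ∃ n : ℕ, out (Wor (dat U h) Y) M [] [] z n = some (chi A z)) {k0 : ℕ}
    (hlow : ∀ s' < s, ∀ k ≥ k0, ∀ n, 2 ^ k ≤ n →
      (FF U a M (wrl (dat U h) s' Y a n) k n).card = (CC U a A (Wor (dat U h) Y) k).card →
      HH U a M (wrl (dat U h) s' Y a n) k n = ∅)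
    (hinf : Rich U h Y A M a s) :
    ∃ (t' : Polynomial ℕ) (c : ℕ), {x | CD U (Wor (dat U h) Y) (fun n => t'.eval n) x ≤
      ic U (Wor (dat U h) Y) (tt a) x A + c}.Infinite := by
  set F := CC U a A (Wor (dat U h) Y) k0 with hF
  set I : Idx := ⟨s, a, M, F, ∅, ∅⟩ with hIdx
  set j := Encodable.encode I with hj
  obtain ⟨t', c, hc⟩ := exists_CD U j a
  refine ⟨t', c, infinite_of_length fun K => ?_⟩
  obtain ⟨k, hk, hex⟩ := hinf (max K (max k0 (2 ^ ((dat U h).d j + 1))))
  have hkK : K ≤ k := (le_max_left _ _).trans hk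
  have hk0 : k0 ≤ k := (le_max_left _ _).trans ((le_max_right _ _).trans hk)
  have hkj : 2 ^ ((dat U h).d j + 1) ≤ k :=
    (le_max_right _ _).trans ((le_max_right _ _).trans hk)
  obtain ⟨x, hx⟩ := exists_Acc hex
  obtain ⟨r, hr1, hr2⟩ := exists_val k _ (card_CC_lt (U := U) a A (Wor (dat U h) Y) k)
  have hlen : 2 ^ k ≤ x.length := hx.1
  have hk2 : k < 2 ^ k := Nat.lt_two_pow_self
  have hrx : r.length ≤ x.length := by omega
  refine ⟨x, ?_, by omega⟩
  have hFF : FF U a M (Wor (dat U h) Y) k x.length = CC U a A (Wor (dat U h) Y) k := by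
    have h1 := hx.2.1
    rw [FF_wrl] at h1
    exact (FF_eq_iff hM k _).1 h1
  -- undecided
  have hund : ∀ p ∈ CC U a A (Wor (dat U h) Y) k,
      U.run (wrl (dat U h) s Y a x.length) p [] x (tt a x.length) = some [] := by
    intro p hp
    have h3 := hx.2.2.1
    unfold HH at h3
    exact (Finset.mem_filter.1 h3).2 p (by rw [FF_wrl, hFF]; exact hp)
  -- the question about `x` opens enough hidden strings
  have hopen : s ≤ lvl U h Y j r x (pd a x.length) := by
    by_contra hcon
    rw [not_le] at hcon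
    set o := lvl U h Y j r x (pd a x.length) with ho
    have h1 : FF U a M (Wor (dat U h) Y) k0 x.length = F := FF_eq_of_le hk0 hFF
    have h2 : HH U a M (wrl (dat U h) o Y a x.length) k0 x.length = ∅ := by
      refine hlow o hcon k0 le_rfl _ ((Nat.pow_le_pow_right (by norm_num) hk0).trans hlen) ?_
      rw [FF_wrl, h1]
    have h3 : x ∈ HH U a M (wrl (dat U h) o Y a x.length) k0 x.length := by
      unfold HH
      rw [Finset.mem_filter, mem_strs, FF_wrl, h1]
      refine ⟨rfl, fun p hp => ?_⟩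
      have hplen : ∀ p ∈ F, p.length ≤ x.length := by
        intro p hp
        rw [hF] at hp
        unfold CC at hp
        have := mem_short.1 (Finset.mem_filter.1 hp).1
        omega
      have h4 : F.card ≤ x.length := by
        have h5 := card_CC_lt (U := U) a A (Wor (dat U h) Y) k0
        rw [← hF] at h5
        have h6 := Nat.pow_le_pow_right (n := 2) (by norm_num) hk0
        omega
      rw [run_not_key (r := r) h4 hplen hcon hs (not_key_opn _ (by
        show o < 2
        omega)) hp]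
      refine hund p ?_
      rw [hF] at hp
      unfold CC at hp ⊢
      rw [Finset.mem_filter, mem_short] at hp ⊢
      exact ⟨by omega, hp.2⟩
    rw [h2] at h3
    exact absurd h3 (Finset.notMem_empty _)
  have hcd := hc (Wor (dat U h) Y) r x fun z => by
    constructor
    · rintro ⟨h1, h2⟩
      by_cases hkz : s ≤ lvl U h Y j r z (pd a z.length)
      · have h3 := (ans_open hs a M F r z h1 hkz).1 h2
        rw [hr1, hr2] at h3
        exact h3.unique hx
      · have h3 := ans_closed hs a M F r z h1 (not_le.1 hkz) h2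
        rw [hr1, hr2] at h3
        obtain ⟨h4, h5, h6⟩ := h3
        rw [hlow _ (not_le.1 hkz) k hk0 _ h4 h5] at h6
        exact absurd h6 (Finset.notMem_empty _)
    · rintro rfl
      refine ⟨hrx, (ans_open hs a M F r z hrx hopen).2 ?_⟩
      rw [hr1, hr2]
      exact hx
  rw [hr1] at hcd
  refine CD_le_ic hcd (le_ic fun p hp => ?_)
  have hpk : p.length < k := by
    unfold CC at hp
    exact mem_short.1 (Finset.mem_filter.1 hp).1
  rw [← hund p hp]
  refine (hY.hide s hs I r p x ?_ ?_ (by omega)).symm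
  · by_contra hcon
    have hcon' : mu (dat U h).d (pd a x.length) < j := not_le.1 hcon
    have h3 := mu_spec (dat U h) (pd a x.length)
    have h4 := (dat U h).pow_mono hcon'.le
    have h6 := lt_pd a x.length
    omega
  · rw [hr1, hr2]
    exact hx

theorem not_rich {s : ℕ} (hs : ¬ Rich U h Y A M a s) : ∃ k0, ∀ k ≥ k0, ∀ n, 2 ^ k ≤ n →
      (FF U a M (wrl (dat U h) s Y a n) k n).card = (CC U a A (Wor (dat U h) Y) k).card →
      HH U a M (wrl (dat U h) s Y a n) k n = ∅ := by
  unfold Rich at hs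
  push Not at hs
  exact hs

/-- The CD-version holds relative to the oracle. -/
theorem partA (hY : Fine U (dat U h) N Y) (hA : DecidableIn (Wor (dat U h) Y) A)
    (hP : ¬ InP (Wor (dat U h) Y) A)
    (t : Polynomial ℕ) : ∃ (t' : Polynomial ℕ) (c : ℕ),
    {x | CD U (Wor (dat U h) Y) (fun n => t'.eval n) x ≤
      ic U (Wor (dat U h) Y) (fun n => t.eval n) x A + c}.Infinite := by
  obtain ⟨a, ha⟩ := exists_tt t
  obtain ⟨M, hM⟩ := hA
  have hmain : ∃ (t' : Polynomial ℕ) (c : ℕ),
      {x | CD U (Wor (dat U h) Y) (fun n => t'.eval n) x ≤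
      ic U (Wor (dat U h) Y) (tt a) x A + c}.Infinite := by
    by_cases h0 : Rich U h Y A M a 0
    · exact typeS (k0 := 0) hY (by norm_num) hM (fun s' hs' => absurd hs' (Nat.not_lt_zero _)) h0
    obtain ⟨k0, hk0⟩ := not_rich h0
    by_cases h1 : Rich U h Y A M a 1
    · refine typeS (k0 := k0) hY (by norm_num) hM (fun s' hs' k hk => ?_) h1
      obtain rfl : s' = 0 := by omega
      exact hk0 k hk
    obtain ⟨k1, hk1⟩ := not_rich h1
    refine typeS (k0 := max k0 k1) hY le_rfl hM (fun s' hs' k hk => ?_) (rich_two hP hM)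
    obtain rfl | rfl : s' = 0 ∨ s' = 1 := by omega
    · exact hk0 k ((le_max_left _ _).trans hk)
    · exact hk1 k ((le_max_right _ _).trans hk)
  obtain ⟨t', c, hinf⟩ := hmain
  refine ⟨t', c, hinf.mono fun x hx => ?_⟩
  refine le_trans (show CD U (Wor (dat U h) Y) (fun n => t'.eval n) x ≤ _ from hx) ?_
  gcongr
  exact ic_anti ha x

end

end Pool.ICS
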